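import Pool.Agent.Y340.EP.P2
import Pool.Agent.Y274.NE.PHYS2

/-! Stage EP: the passage to fields (adapted from `Pool.Agent.Y993.NF.P3`). -/

open Set Filter Topology MeasureTheory

set_option autoImplicit false

namespace Pool.Agent.Y340.EP

open Pool.Agent.Y5 Pool.Agent.Y5.D Pool.Agent.Y5.E Pool.Agent.Y5.F Pool.Agent.Y274.NE
open Pool.Agent.Y8.EP
open Pool.Agent.Y275.ND (syn)

theorem t_PHYS5 : S_PHYS5 := by
  intro hF hB hC ν α hν hα hα1
  obtain ⟨J, g, κ, μ, lam, Λ, M, F, L, C, ℓ, N, G, B, e, hc, hS, hK⟩ := hC ν α hν hα hα1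
  have hD := diss hF hc hS hK hν hα (by linarith)
  obtain ⟨M', h⟩ := bs_of hc hS hK
  obtain ⟨⟨hip, hcnv, hdir⟩, hcf⟩ := hF
  obtain ⟨T, z, hT, hsol, hinit, hreg, huniq, hen, hder, hgrow⟩ :=
    hB J g κ μ lam Λ M L C ℓ B _ hK hS
  have hL1 := L_one hS
  -- decay of the coefficients
  have hdec : ∀ T' < T, ∀ k : ℕ, ∃ Mk, ∀ t ∈ Icc 0 T', ∀ a, L (gr g a) ^ k * |z a t| ≤ Mk := by
    intro T' hT' k
    obtain ⟨Mk, hMk⟩ := hreg k T' hT'
    refine ⟨√Mk, fun t ht a => ?_⟩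
    obtain ⟨h1, h2⟩ := hMk t ht
    have h3 := h1.le_tsum a (fun _ _ => sq_nonneg _)
    have h4 : (L (gr g a) ^ k * z a t) ^ 2 ≤ Mk := h3.trans h2
    have h5 := Real.abs_le_sqrt h4
    rwa [abs_mul, abs_of_nonneg (pow_nonneg (by linarith [hL1 (gr g a)]) k)] at h5
  have hrapz : ∀ t ∈ Ico 0 T, ∀ p : ℕ, ∃ Cp, ∀ a, L (gr g a) ^ p * |z a t| ≤ Cp := by
    intro t ht p
    obtain ⟨Mk, hMk⟩ := hdec t ht.2 p
    exact ⟨Mk, hMk t ⟨ht.1, le_rfl⟩⟩
  have hgood : ∀ t ∈ Ico 0 T, Summable (fun a => |z a t| * M' (gr g a)) :=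
    fun t ht => good_of_rap h (hrapz t ht)
  set V : ℝ → Fam := fun t => syn e (fun a => z a t) with hVdef
  have hVb : ∀ m : ℕ, ∀ T' < T, ∃ Mb, ∀ t ∈ Icc 0 T', ∀ k, ‖vec k‖ ^ m * ‖V t k‖ ≤ Mb := by
    intro m T' hT'
    obtain ⟨Mk, hMk⟩ := hdec T' hT' (4 * (m + 1) + 5)
    refine ⟨Mk * M' 0 ^ (m + 1) * ∑' a : Ix J, 1 / L (gr g a) ^ 5, fun t ht k => ?_⟩
    have ht' : t ∈ Ico 0 T := ⟨ht.1, lt_of_le_of_lt ht.2 hT'⟩
    have h1 := sum_of_dec h (m + 1) Mk (fun a => z a t) (hMk t ht)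
    exact (syn_norm h m (hgood t ht') h1.1 k).trans h1.2
  have hVot : ∀ t ∈ Ico 0 T, OT (V t) := fun t ht => syn_ot h (hgood t ht)
  have hVrap : ∀ t ∈ Ico 0 T, Rap (V t) := fun t ht => rap_syn h (hrapz t ht)
  have hipz : ∀ t ∈ Ico 0 T, ∀ a, ip (fieldOf (V t)) (fieldOf (e a)) = z a t := by
    intro t ht a
    rw [hip _ _ (hVot t ht) (hVrap t ht) (h.ot a) (rap_e h a)]
    exact pair_syn_e h (hgood t ht) a
  refine ⟨Ix J, fun a => fieldOf (e a), dF ℓ (Sd κ μ L) g, Sum.inl 0, T,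
    fun t => fieldOf (V t), hD, hT, ?_, ?_, ?_, ?_, ?_⟩
  · -- Sol2
    refine ⟨⟨V, fun t ht => ⟨hVot t ht, rfl⟩, hVb⟩, ?_⟩
    intro i t ht
    have h1 := hsol.deriv i t ht
    have h2 : HasDerivWithinAt (fun τ => ip (fieldOf (V τ)) (fieldOf (e i)))
        (-(dF ℓ (Sd κ μ L) g i * z i t) +
          bl (fun j a b => bil (e a) (e b) (e j)) (fun a => z a t) (fun a => z a t) i)
        (Ico 0 T) t :=
      h1.congr (fun τ hτ => hipz τ hτ i) (hipz t ht i)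
    refine h2.congr_deriv ?_
    rw [hipz t ht i, hcnv _ _ (hVot t ht) (hVrap t ht) (h.ot i) (rap_e h i),
      bil_syn h (hgood t ht) i]
    ring
  · -- initial datum
    show fieldOf (V 0) = fieldOf (e (Sum.inl 0))
    rw [hVdef]
    simp only
    rw [syn_init hinit.1 hinit.2.1 hinit.2.2]
  · -- uniqueness
    intro T' v hT' hv hv0
    obtain ⟨V', hV', hV'b⟩ := hv.reg
    have hrap : ∀ t ∈ Ico 0 T', Rap (V' t) := by
      intro t ht m
      obtain ⟨Mb, hMb⟩ := hV'b m t ht.2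
      exact ⟨Mb, hMb t ⟨ht.1, le_rfl⟩⟩
    set z' : Ix J → ℝ → ℝ := fun a t => pair (V' t) (e a) with hz'
    have hipz' : ∀ t ∈ Ico 0 T', ∀ a, ip (v t) (fieldOf (e a)) = z' a t := by
      intro t ht a
      rw [(hV' t ht).2, hip _ _ (hV' t ht).1 (hrap t ht) (h.ot a) (rap_e h a)]
    have hgood' : ∀ t ∈ Ico 0 T', Summable (fun a => |z' a t| * M' (gr g a)) :=
      fun t ht => good_of_rap h (coef_rap h (V' t) (hrap t ht))
    have hexp : ∀ t ∈ Ico 0 T', V' t = syn e (fun a => z' a t) :=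
      fun t ht => expand h (V' t) (hV' t ht).1 (hrap t ht)
    have h0mem : (0:ℝ) ∈ Ico 0 T' := ⟨le_rfl, hT'⟩
    have hz0 : ∀ a, z' a 0 = pair (e (Sum.inl 0)) (e a) := by
      intro a
      rw [← hipz' 0 h0mem a, hv0, hip _ _ (h.ot _) (rap_e h _) (h.ot a) (rap_e h a)]
    have hderiv' : ∀ i, ∀ t ∈ Ico 0 T', HasDerivWithinAt (z' i)
        (-(dF ℓ (Sd κ μ L) g i * z' i t) +
          bl (fun j a b => bil (e a) (e b) (e j)) (fun a => z' a t) (fun a => z' a t) i)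
        (Ico 0 T') t := by
      intro i t ht
      have h1 := hv.eqn i t ht
      have h2 : HasDerivWithinAt (z' i)
          (-(dF ℓ (Sd κ μ L) g i * ip (v t) (fieldOf (e i))) -
            cnv (v t) (fieldOf (e i))) (Ico 0 T') t :=
        h1.congr (fun τ hτ => (hipz' τ hτ i).symm) (hipz' t ht i).symm
      refine h2.congr_deriv ?_
      rw [hipz' t ht i, (hV' t ht).2,
        hcnv _ _ (hV' t ht).1 (hrap t ht) (h.ot i) (rap_e h i),
        bil_syn h (hgood' t ht) i, ← hexp t ht]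
      ring
    obtain ⟨D, hD0, hcoef⟩ := coef_dec h
    have hbdd' : ∀ T'' < T', ∃ Mb, ∀ t ∈ Icc 0 T'', Sk (rI L g) 1 (fun a => z' a t) ∧
        nk (rI L g) 1 (fun a => z' a t) ≤ Mb := by
      intro T'' hT''
      obtain ⟨μ', hμ⟩ := hV'b (3 * (6 + 4)) T'' hT''
      set A : ℝ := D ^ (6 + 4) * μ' * M' 0 with hA
      refine ⟨∑' a : Ix J, A ^ 2 * (1 / L (gr g a) ^ 5), fun t ht => ?_⟩
      have hs5 := summable_L5 h
      have h1 : ∀ a, (rI L g a ^ 1 * z' a t) ^ 2 ≤ A ^ 2 * (1 / L (gr g a) ^ 5) := by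
        intro a
        have h2 := hcoef 6 (V' t) μ' (hμ t ht) a
        have h3 := hL1 (gr g a)
        have h4 : (1:ℝ) ≤ L (gr g a) ^ 5 := one_le_pow₀ h3
        have h5 : 0 ≤ L (gr g a) * |z' a t| := by positivity
        have h6 : L (gr g a) ^ 5 * (L (gr g a) * |z' a t|) ≤ A := by
          calc L (gr g a) ^ 5 * (L (gr g a) * |z' a t|) = L (gr g a) ^ 6 * |z' a t| := by ring
            _ ≤ A := h2
        have hA0 : 0 ≤ A := le_trans (by positivity) h6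
        have h7 : L (gr g a) * |z' a t| ≤ A := by nlinarith
        have h8 : L (gr g a) * |z' a t| ≤ A / L (gr g a) ^ 5 := by
          rw [le_div_iff₀ (by linarith), mul_comm]
          exact h6
        show (L (gr g a) ^ 1 * z' a t) ^ 2 ≤ _
        rw [pow_one, mul_pow, ← sq_abs (z' a t), ← mul_pow, sq]
        calc L (gr g a) * |z' a t| * (L (gr g a) * |z' a t|) ≤ A * (A / L (gr g a) ^ 5) :=
              mul_le_mul h7 h8 h5 hA0
          _ = A ^ 2 * (1 / L (gr g a) ^ 5) := by ring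
      have h2 : Sk (rI L g) 1 (fun a => z' a t) :=
        Summable.of_nonneg_of_le (fun _ => sq_nonneg _) h1 (hs5.mul_left _)
      exact ⟨h2, h2.tsum_le_tsum h1 (hs5.mul_left _)⟩
    have hasol : ASol2 (dF ℓ (Sd κ μ L) g) (rI L g)
        (fun j a b => bil (e a) (e b) (e j)) T' z' := ⟨hderiv', hbdd'⟩
    have hinit' : Init z' := by
      refine ⟨?_, fun n => ?_, fun w => ?_⟩
      · rw [hz0]; exact (h.orth _ _).1 rfl
      · rw [hz0]; exact (h.orth _ _).2 (by simp)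
      · rw [hz0]; exact (h.orth _ _).2 (by simp)
    obtain ⟨h1, h2⟩ := huniq T' z' hT' hasol hinit'
    refine ⟨h1, fun t ht => ?_⟩
    rw [(hV' t ht).2, hexp t ht]
    have h3 : (fun a => z' a t) = fun a => z a t := funext (fun a => h2 a t ht)
    rw [h3]
  · -- energy identity
    intro t ht
    obtain ⟨h1, h2⟩ := hder t ht
    have hpar : ∀ τ ∈ Ico 0 T, ip (fieldOf (V τ)) (fieldOf (V τ)) = ∑' a, z a τ ^ 2 := by
      intro τ hτ
      rw [hip _ _ (hVot τ hτ) (hVrap τ hτ) (hVot τ hτ) (hVrap τ hτ)]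
      exact pair_self h (hgood τ hτ)
    have h3 := h2.congr (fun τ hτ => hpar τ hτ) (hpar t ht)
    refine h3.congr_deriv ?_
    simp only [hipz t ht]
  · -- blow-up
    intro Mb
    obtain ⟨n, hn⟩ := N_unbounded hc hS (2000 * Mb)
    obtain ⟨t, ht, A, hA, hx, hlo, hw, hY⟩ := hgrow n
    have hκ0 := hS.κ0
    have hA0 : 0 ≤ A := le_trans (by positivity) hA
    obtain ⟨y, hy⟩ := blow_lower hc h hS z t (hgood t ht) (hen t ht).1 n A hA0 hx hlo hw hY
    refine ⟨t, ht, y, ?_⟩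
    have h5 : A * N n / 2000 ≤ ‖fieldOf (V t) y‖ := hy
    have h6 := N_one hc hS n
    have h7 : (9 / 1000 * κ) ^ n * N n ≤ A * N n := mul_le_mul_of_nonneg_right hA (by linarith)
    linarith

end Pool.Agent.Y340.EP
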