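import Pool.Agent.Y274.NE.B5
import Pool.Agent.Y8.EP.Stm

/-! Stage EP, the passage to fields: elementary bounds and the lower bound of the velocity
(adapted from `Pool.Agent.Y993.NF`). -/

open Set Filter Topology MeasureTheory

set_option autoImplicit false

namespace Pool.Agent.Y340.EP

open Pool.Agent.Y5 Pool.Agent.Y5.D Pool.Agent.Y5.E Pool.Agent.Y5.F Pool.Agent.Y274.NE
open Pool.Agent.Y8.EP
open Pool.Agent.Y275.ND (finite_ball fib syn zl zr zlr zl_supp zr_supp zl_good zr_good)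

section params

variable {κ μ lam Λ M : ℝ} {L C ℓ : ℕ → ℝ} {B : ℕ → ℕ → ℝ}

lemma mu_one (hS : Sq5 κ μ lam Λ M L C ℓ B) : 1 ≤ μ := by
  have := hS.μ_big
  have : (1:ℝ) ≤ 10 ^ 30 := by norm_num
  linarith

lemma lam_big (hS : Sq5 κ μ lam Λ M L C ℓ B) : 10 ^ 30 ≤ lam := by
  have h1 := hS.μ_big
  have h2 := hS.μ_eq
  have h3 := hS.κ0
  have h4 := hS.κ1
  have h5 : (0:ℝ) < κ * lam := by
    have : (0:ℝ) < 10 ^ 30 := by norm_num
    linarith
  have h6 : 0 < lam := pos_of_mul_pos_right h5 h3.le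
  have h7 : κ * lam ≤ 1 * lam := mul_le_mul_of_nonneg_right h4 h6.le
  linarith

lemma lam_one (hS : Sq5 κ μ lam Λ M L C ℓ B) : 1 ≤ lam := by
  have := lam_big hS
  have : (1:ℝ) ≤ 10 ^ 30 := by norm_num
  linarith

lemma lam_le_exp (hS : Sq5 κ μ lam Λ M L C ℓ B) : lam ≤ Real.exp (μ / 1000) := by
  have h1 := hS.exp_big
  have h2 := hS.M_one
  have h3 := lam_one hS
  have h4 : (1:ℝ) ≤ 10 ^ 6 * M ^ 4 := by
    have : (1:ℝ) ≤ M ^ 4 := one_le_pow₀ h2
    linarith
  have h5 : lam ≤ 10 ^ 6 * M ^ 4 * lam ^ 3 := by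
    have h6 : lam ≤ lam ^ 3 := by
      calc lam = lam ^ 1 := (pow_one _).symm
        _ ≤ lam ^ 3 := pow_le_pow_right₀ h3 (by norm_num)
    calc lam = 1 * lam := (one_mul _).symm
      _ ≤ (10 ^ 6 * M ^ 4) * lam ^ 3 := mul_le_mul h4 h6 (by linarith) (by linarith)
  have h6 : lam ≤ (10 ^ 6 * M ^ 4 * lam ^ 3) ^ 10 := by
    calc lam ≤ (10 ^ 6 * M ^ 4 * lam ^ 3) := h5
      _ = (10 ^ 6 * M ^ 4 * lam ^ 3) ^ 1 := (pow_one _).symm
      _ ≤ (10 ^ 6 * M ^ 4 * lam ^ 3) ^ 10 := pow_le_pow_right₀ (h3.trans h5) (by norm_num)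
  have h7 : Real.exp (μ / 10 ^ 6) ≤ Real.exp (μ / 1000) := by
    have := mu_one hS
    apply Real.exp_le_exp.2
    linarith
  exact h6.trans (h1.trans h7)

lemma L_eq (hS : Sq5 κ μ lam Λ M L C ℓ B) (n : ℕ) : L n = lam ^ n * L 0 := by
  induction n with
  | zero => simp
  | succ n ih => rw [hS.L_succ, ih, pow_succ]; ring

lemma L_one (hS : Sq5 κ μ lam Λ M L C ℓ B) (n : ℕ) : 1 ≤ L n := by
  rw [L_eq hS n]
  exact one_le_mul_of_one_le_of_one_le (one_le_pow₀ (lam_one hS)) hS.L0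

lemma L_two (hS : Sq5 κ μ lam Λ M L C ℓ B) (n : ℕ) : 2 ^ n ≤ L n := by
  rw [L_eq hS n]
  have h1 : (2:ℝ) ^ n ≤ lam ^ n := by
    apply pow_le_pow_left₀ (by norm_num)
    have := lam_big hS
    have : (2:ℝ) ≤ 10 ^ 30 := by norm_num
    linarith
  have h2 := hS.L0
  have h3 : (0:ℝ) ≤ lam ^ n := pow_nonneg (by linarith [lam_one hS]) n
  nlinarith

lemma L_le (hS : Sq5 κ μ lam Λ M L C ℓ B) (n : ℕ) : L n ≤ L (n + 1) := by
  rw [hS.L_succ]
  have h1 := lam_one hS
  have h2 := L_one hS n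
  nlinarith

lemma L0_le (hS : Sq5 κ μ lam Λ M L C ℓ B) (n : ℕ) : L 0 ≤ L n := by
  induction n with
  | zero => exact le_rfl
  | succ n ih => exact ih.trans (L_le hS n)

lemma kpow (hS : Sq5 κ μ lam Λ M L C ℓ B) (n : ℕ) : 0 < κ ^ n ∧ κ ^ n ≤ 1 :=
  ⟨pow_pos hS.κ0 n, pow_le_one₀ hS.κ0.le hS.κ1⟩

lemma KL_succ (hS : Sq5 κ μ lam Λ M L C ℓ B) (n : ℕ) :
    κ ^ (n + 1) * L (n + 1) = μ * (κ ^ n * L n) := by
  rw [hS.L_succ, hS.μ_eq, pow_succ]
  ring

lemma KL_one (hS : Sq5 κ μ lam Λ M L C ℓ B) (n : ℕ) : 1 ≤ κ ^ n * L n := by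
  induction n with
  | zero => rw [pow_zero, one_mul]; exact hS.L0
  | succ n ih =>
    rw [KL_succ hS]
    exact one_le_mul_of_one_le_of_one_le (mu_one hS) ih

lemma KL_le (hS : Sq5 κ μ lam Λ M L C ℓ B) (n : ℕ) : κ ^ n * L n ≤ L n := by
  have h1 := kpow hS n
  have h2 := L_one hS n
  nlinarith

lemma ell_le (hS : Sq5 κ μ lam Λ M L C ℓ B) (n : ℕ) : ℓ n ≤ κ ^ n * L n := by
  cases n with
  | zero =>
    have h1 := hS.ℓ_zero
    have h2 := hS.ℓ_nonneg 0
    have h3 := mu_one hS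
    have h4 : ℓ 0 ≤ 10 ^ 6 * (ℓ 0 * μ) := by nlinarith
    rw [pow_zero, one_mul]
    linarith
  | succ n =>
    have h1 := hS.ℓ_succ n
    have h0 := KL_one hS n
    have h4 := mu_one hS
    rw [KL_succ hS, h1]
    nlinarith

end params

section conc

variable {J : Type} {ν α α' κ μ lam Λ M : ℝ} {g : J → ℕ} {F L C ℓ N G : ℕ → ℝ} {B : ℕ → ℕ → ℝ}
  {e : Ix J → Fam} {c : Ix J → Ix J → Ix J → ℝ}

lemma N_eq (hc : Conc4 ν α α' κ μ lam g F L ℓ N G e) (hl : 0 ≤ lam) (n k : ℕ) :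
    N (n + k) ≤ lam ^ k * N n := by
  induction k with
  | zero => simp
  | succ k ih =>
    have h1 := hc.N_up (n + k)
    calc N (n + (k + 1)) ≤ lam * N (n + k) := h1
      _ ≤ lam * (lam ^ k * N n) := mul_le_mul_of_nonneg_left ih hl
      _ = lam ^ (k + 1) * N n := by rw [pow_succ]; ring

lemma N_one (hc : Conc4 ν α α' κ μ lam g F L ℓ N G e) (hS : Sq5 κ μ lam Λ M L C ℓ B) (n : ℕ) :
    1 ≤ N n := by
  induction n with
  | zero => exact hc.N0
  | succ n ih =>
    have h1 := hc.N_grow n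
    have h2 := hS.κ0
    have h3 := hS.κ1
    have h4 : 0 < κ * N (n + 1) := by linarith
    have h5 : 0 < N (n + 1) := pos_of_mul_pos_right h4 h2.le
    nlinarith

lemma N_L (hc : Conc4 ν α α' κ μ lam g F L ℓ N G e) (hS : Sq5 κ μ lam Λ M L C ℓ B) (n : ℕ) :
    N n ≤ N 0 * L n := by
  have h1 := N_eq hc (by linarith [lam_one hS]) 0 n
  rw [zero_add] at h1
  have h2 := L_eq hS n
  have h3 := hS.L0
  have h4 := N_one hc hS 0
  have h5 : (0:ℝ) ≤ lam ^ n := pow_nonneg (by linarith [lam_one hS]) n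
  rw [h2]
  calc N n ≤ lam ^ n * N 0 := h1
    _ = N 0 * (lam ^ n * 1) := by ring
    _ ≤ N 0 * (lam ^ n * L 0) := by gcongr

lemma gset_fin (hc : Conc4 ν α α' κ μ lam g F L ℓ N G e) (n : ℕ) :
    {k : Z3 | ∃ a, gr g a = n ∧ e a k ≠ 0}.Finite := by
  refine (finite_ball (F n)).subset ?_
  rintro k ⟨a, ha, hk⟩
  have := (hc.fsupp a k hk).2
  rwa [ha] at this

/-- the `ℓ¹`-norm of a family with frequencies in the group `n` -/
lemma l1l2 (hc : Conc4 ν α α' κ μ lam g F L ℓ N G e) (n : ℕ) (W : Fam)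
    (hW : ∀ k, W k ≠ 0 → ∃ a, gr g a = n ∧ e a k ≠ 0) :
    Summable (fun k => ‖W k‖) ∧ ∑' k, ‖W k‖ ≤ G n * √(∑' k, ‖W k‖ ^ 2) := by
  classical
  have hfin := gset_fin hc n
  set s := hfin.toFinset with hs
  have h0 : ∀ k, k ∉ s → W k = 0 := by
    intro k hk
    by_contra h1
    apply hk
    rw [hs, Set.Finite.mem_toFinset]
    exact hW k h1
  have h1 : ∑' k, ‖W k‖ = ∑ k ∈ s, ‖W k‖ :=
    tsum_eq_sum (fun k hk => by rw [h0 k hk, norm_zero])
  have h2 : ∑' k, ‖W k‖ ^ 2 = ∑ k ∈ s, ‖W k‖ ^ 2 :=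
    tsum_eq_sum (fun k hk => by rw [h0 k hk]; simp)
  refine ⟨summable_of_ne_finset_zero (s := s) (fun k hk => by rw [h0 k hk, norm_zero]), ?_⟩
  rw [h1, h2]
  have h3 : (∑ k ∈ s, ‖W k‖) ^ 2 ≤ (s.card : ℝ) * ∑ k ∈ s, ‖W k‖ ^ 2 := sq_sum_le_card_mul_sum_sq
  have h4 : (s.card : ℝ) ≤ G n ^ 2 := by
    have h5 := hc.cnt n
    rw [Set.ncard_eq_toFinset_card _ hfin] at h5
    exact h5
  have h6 : 0 ≤ ∑ k ∈ s, ‖W k‖ ^ 2 := Finset.sum_nonneg (fun _ _ => by positivity)
  have h7 : (∑ k ∈ s, ‖W k‖) ^ 2 ≤ (G n * √(∑ k ∈ s, ‖W k‖ ^ 2)) ^ 2 := by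
    rw [mul_pow, Real.sq_sqrt h6]
    exact h3.trans (mul_le_mul_of_nonneg_right h4 h6)
  exact le_of_sq_le_sq h7 (mul_nonneg (hc.G0 n) (Real.sqrt_nonneg _))

lemma e_l1 (hc : Conc4 ν α α' κ μ lam g F L ℓ N G e) (a : Ix J) : ∑' k, ‖e a k‖ ≤ G (gr g a) := by
  have h1 := (l1l2 hc (gr g a) (e a) (fun k hk => ⟨a, rfl, hk⟩)).2
  have h2 := (hc.orth a a).1 rfl
  unfold pair at h2
  simp only [real_inner_self_eq_norm_sq] at h2
  rw [h2, Real.sqrt_one, mul_one] at h1
  exact h1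

lemma F_one (hc : Conc4 ν α α' κ μ lam g F L ℓ N G e) (n : ℕ) : 1 ≤ F n := by
  have h1 : ∃ k, e (Sum.inl n) k ≠ 0 := by
    by_contra hcon
    push Not at hcon
    have h1 := (hc.orth (Sum.inl n) (Sum.inl n)).1 rfl
    unfold pair at h1
    simp [hcon] at h1
  obtain ⟨k, hk⟩ := h1
  have := hc.fsupp _ k hk
  exact this.1.trans this.2

lemma bs_of (hc : Conc4 ν α α' κ μ lam g F L ℓ N G e) (hS : Sq5 κ μ lam Λ M L C ℓ B)
    (hK : Ker g Λ M L C B c) : ∃ M' : ℕ → ℝ, Bs g L M' e := by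
  obtain ⟨D1, hD1, hFL⟩ := hc.F_L
  obtain ⟨D2, hcard⟩ := hK.card
  obtain ⟨D3, hD3, hLF⟩ := hc.L_F
  obtain ⟨D4, hD4, hcmp⟩ := hc.F_cmp
  have hN0 := N_one hc hS 0
  have hex : 0 < Real.exp (μ / 1000) := Real.exp_pos _
  set D : ℝ := 1 + D1 + |D2| + Real.exp (μ / 1000) * N 0 with hD
  have hp : 0 ≤ Real.exp (μ / 1000) * N 0 := by positivity
  have hD0 : 1 ≤ D := by
    have := abs_nonneg D2
    linarith
  have hL1 := L_one hS
  have hL2 : ∀ n, L n ≤ L n ^ 2 := fun n => by nlinarith [hL1 n]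
  refine ⟨fun n => D * L n ^ 2, hc.ot, ?_, ?_, hc.disj, hc.orth, hc.compl, ?_, hK.fin, ?_, hL1,
    L_two hS, ?_, ?_⟩
  · intro a k hk
    have h1 := hc.fsupp a k hk
    refine ⟨h1.1, h1.2.trans ((hFL _).trans ?_)⟩
    have h2 := hL1 (gr g a)
    have h3 : D1 ≤ D := by
      have := abs_nonneg D2
      linarith
    exact mul_le_mul h3 (hL2 _) (by linarith) (by linarith)
  · refine ⟨D3 * D4 ^ (5 / 2 : ℝ), by positivity, fun a k hk => ?_⟩
    have h1 := hLF (gr g a)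
    have h2 := hcmp a k hk
    have h3 := (hc.fsupp a k hk).1
    have h4 := F_one hc (gr g a)
    calc L (gr g a) ≤ D3 * F (gr g a) ^ (5 / 2 : ℝ) := h1
      _ ≤ D3 * (D4 * ‖vec k‖) ^ (5 / 2 : ℝ) := by
          gcongr
      _ = D3 * (D4 ^ (5 / 2 : ℝ) * ‖vec k‖ ^ (5 / 2 : ℝ)) := by
          rw [Real.mul_rpow hD4.le (norm_nonneg _)]
      _ ≤ D3 * (D4 ^ (5 / 2 : ℝ) * ‖vec k‖ ^ (3 : ℝ)) := by
          gcongr
          norm_num
      _ = D3 * D4 ^ (5 / 2 : ℝ) * ‖vec k‖ ^ 3 := by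
          have : ‖vec k‖ ^ (3 : ℝ) = ‖vec k‖ ^ 3 := by
            rw [← Real.rpow_natCast]; norm_num
          rw [this]; ring
  · intro a
    have h1 := e_l1 hc a
    have h2 := hc.G_le (gr g a)
    have h3 := N_L hc hS (gr g a)
    calc ∑' k, ‖e a k‖ ≤ G (gr g a) := h1
      _ ≤ Real.exp (μ / 1000) * N (gr g a) := h2
      _ ≤ Real.exp (μ / 1000) * (N 0 * L (gr g a)) := by gcongr
      _ = (Real.exp (μ / 1000) * N 0) * L (gr g a) := by ring
      _ ≤ D * L (gr g a) ^ 2 := by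
          refine mul_le_mul ?_ (hL2 _) (by linarith [hL1 (gr g a)]) (by linarith)
          have := abs_nonneg D2
          linarith
  · intro m
    refine (hcard m).trans (mul_le_mul_of_nonneg_right ?_ (by positivity))
    have := le_abs_self D2
    linarith
  · intro n
    exact one_le_mul_of_one_le_of_one_le hD0 (one_le_pow₀ (hL1 n))
  · intro n
    show D * L n ^ 2 ≤ D * L 0 ^ 2 * L n ^ 4
    have h1 : (1:ℝ) ≤ L 0 ^ 2 := one_le_pow₀ (hL1 0)
    have h2 : L n ^ 2 ≤ L n ^ 4 := pow_le_pow_right₀ (hL1 n) (by norm_num)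
    calc D * L n ^ 2 = D * 1 * L n ^ 2 := by ring
      _ ≤ D * L 0 ^ 2 * L n ^ 4 := by gcongr

end conc

section conc

variable {J : Type} {ν α α' κ μ lam Λ M : ℝ} {g : J → ℕ} {F L C ℓ N G : ℕ → ℝ} {B : ℕ → ℕ → ℝ}
  {e : Ix J → Fam} {c : Ix J → Ix J → Ix J → ℝ} {M' : ℕ → ℝ}

lemma N_pow (hc : Conc4 ν α α' κ μ lam g F L ℓ N G e) (hS : Sq5 κ μ lam Λ M L C ℓ B) (m k : ℕ) :
    N m * 10 ^ (9 * k) ≤ κ ^ k * N (m + k) := by
  induction k with
  | zero => simp
  | succ k ih =>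
    have h1 := hc.N_grow (m + k)
    have h2 : (10:ℝ) ^ (9 * (k + 1)) = 10 ^ (9 * k) * 10 ^ 9 := by rw [mul_add, pow_add, mul_one]
    rw [h2]
    have h3 : N (m + (k + 1)) = N (m + k + 1) := rfl
    rw [h3]
    have h4 := (kpow hS k).1
    calc N m * (10 ^ (9 * k) * 10 ^ 9) = (N m * 10 ^ (9 * k)) * 10 ^ 9 := by ring
      _ ≤ (κ ^ k * N (m + k)) * 10 ^ 9 := by gcongr
      _ = κ ^ k * (10 ^ 9 * N (m + k)) := by ring
      _ ≤ κ ^ k * (κ * N (m + k + 1)) := by gcongr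
      _ = κ ^ (k + 1) * N (m + k + 1) := by rw [pow_succ]; ring

lemma zr_l1 (hc : Conc4 ν α α' κ μ lam g F L ℓ N G e) (h : Bs g L M' e) (z : Ix J → ℝ → ℝ) (t : ℝ)
    (m : ℕ) : ∑' k, ‖syn e (zr g (fun a => z a t) m) k‖ ≤ G m * wz g z m t := by
  have h1 := (l1l2 hc m (syn e (zr g (fun a => z a t) m)) (fun k hk => zr_group _ m k hk)).2
  rw [zr_energy h, ← wz_eq h] at h1
  exact h1

theorem blow_lower (hc : Conc4 ν α α' κ μ lam g F L ℓ N G e) (h : Bs g L M' e)
    (hS : Sq5 κ μ lam Λ M L C ℓ B) (z : Ix J → ℝ → ℝ) (t : ℝ)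
    (hz : Summable (fun a => |z a t| * M' (gr g a))) (hs : Summable (fun a => z a t ^ 2))
    (n : ℕ) (A : ℝ) (hA0 : 0 ≤ A) (hx : 99 / 100 * A ≤ z (Sum.inl n) t)
    (hlo : ∀ i < n, |z (Sum.inl i) t| ≤ 200 * (1000 / (9 * κ)) ^ (n - i) * A)
    (hw : ∀ i ≤ n, wz g z i t ≤ Real.exp (-(μ / 10)) * (1000 / (9 * κ)) ^ (n - i) * A)
    (hY : ∀ k : ℕ, √(Yt (fun n => z (Sum.inl n)) (wz g z) (n + 1 + k) t) ≤
      Real.exp (-(μ / 250 * (k + 1))) * A) :
    ∃ y, A * N n / 2000 ≤ ‖fieldOf (syn e (fun a => z a t)) y‖ := by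
  classical
  obtain ⟨y, hy⟩ := hc.pt n
  refine ⟨y, ?_⟩
  have hy' : N n / 1000 ≤ ‖fieldOf (e (Sum.inl n)) y‖ := hy
  have hmu := hS.μ_big
  have hmu0 : 0 ≤ μ := le_trans (by norm_num) hmu
  have hlam0 : 0 ≤ lam := by linarith [lam_one hS]
  have hNn := N_one hc hS n
  have hAN : 0 ≤ A * N n := by positivity
  set z' : Ix J → ℝ → ℝ := fun a s => if a = Sum.inl n then 0 else z a s with hz'
  have hz'g : Summable (fun a => |z' a t| * M' (gr g a)) := by
    refine Summable.of_nonneg_of_le (fun a => mul_nonneg (abs_nonneg _) (M_nonneg h a))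
      (fun a => ?_) hz
    refine mul_le_mul_of_nonneg_right ?_ (M_nonneg h a)
    simp only [hz']
    split_ifs
    · rw [abs_zero]; exact abs_nonneg _
    · exact le_rfl
  have hwz : ∀ m, wz g z' m t = wz g z m t := by
    intro m
    unfold wz
    congr 1
  -- decomposition
  have hsplit : fieldOf (syn e (fun a => z a t)) y =
      z (Sum.inl n) t • fieldOf (e (Sum.inl n)) y + fieldOf (syn e (fun a => z' a t)) y := by
    rw [fieldOf_syn h hz, fieldOf_syn h hz'g]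
    have hsum : Summable (fun a => z a t • fieldOf (e a) y) := by
      refine Summable.of_norm_bounded hz (fun a => ?_)
      rw [norm_smul, Real.norm_eq_abs]
      exact mul_le_mul_of_nonneg_left ((field_le (e a) (e_summable h a) y).trans (h.l1 a))
        (abs_nonneg _)
    rw [hsum.tsum_eq_add_tsum_ite (Sum.inl n)]
    congr 1
    apply tsum_congr
    intro a
    simp only [hz']
    split_ifs
    · rw [zero_smul]
    · rfl
  have hex1 : Real.exp (μ / 1000) * Real.exp (-(μ / 10)) ≤ 1 / 10 ^ 10 := by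
    rw [← Real.exp_add]
    have : μ / 1000 + -(μ / 10) = -(99 * μ / 1000) := by ring
    rw [this]
    exact exp_small hmu (by linarith)
  have hex2 : 2 * (lam * (Real.exp (μ / 1000) * Real.exp (-(μ / 250)))) ≤ 1 / 40000 := by
    have h1 := lam_le_exp hS
    have h2 : lam * (Real.exp (μ / 1000) * Real.exp (-(μ / 250))) ≤
        Real.exp (μ / 1000) * (Real.exp (μ / 1000) * Real.exp (-(μ / 250))) :=
      mul_le_mul_of_nonneg_right h1 (by positivity)
    rw [← Real.exp_add, ← Real.exp_add] at h2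
    have h3 : μ / 1000 + (μ / 1000 + -(μ / 250)) = -(2 * μ / 1000) := by ring
    rw [h3] at h2
    have h4 := exp_small hmu (x := 2 * μ / 1000) (by linarith)
    rw [← Real.exp_add] at *
    norm_num at h4 ⊢
    linarith
  have hGn : ∀ m, G m ≤ Real.exp (μ / 1000) * N m := hc.G_le
  have hkq : ∀ k : ℕ, (1000 / (9 * κ)) ^ k = (1000 / 9) ^ k / κ ^ k := by
    intro k
    rw [← div_pow]
    congr 1
    have := hS.κ0.ne'
    field_simp
  have hw0 : ∀ m, 0 ≤ wz g z m t := fun m => Real.sqrt_nonneg _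
  -- bounds in the groups
  have hb : ∀ m, |z' (Sum.inl m) t| * ∑' k, ‖e (Sum.inl m) k‖ +
      ∑' k, ‖syn e (zr g (fun a => z' a t) m) k‖ ≤
      A * N n * (1 / 20000) * (if m ≤ n then (1 / 2 : ℝ) ^ (n - m) else (1 / 2) ^ (m - n)) := by
    intro m
    have h1 := zr_l1 hc h z' t m
    rw [hwz] at h1
    have h2 : |z' (Sum.inl m) t| * ∑' k, ‖e (Sum.inl m) k‖ ≤ |z' (Sum.inl m) t| * N m :=
      mul_le_mul_of_nonneg_left (hc.l1N m) (abs_nonneg _)
    have hNm := N_one hc hS m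
    have h3 : G m * wz g z m t ≤ Real.exp (μ / 1000) * N m * wz g z m t :=
      mul_le_mul_of_nonneg_right (hGn m) (hw0 m)
    refine (add_le_add h2 (h1.trans h3)).trans ?_
    rcases lt_trichotomy m n with hmn | hmn | hmn
    · -- m < n
      obtain ⟨k, rfl⟩ : ∃ k, n = m + (k + 1) := ⟨n - m - 1, by omega⟩
      have hsub : m + (k + 1) - m = k + 1 := by omega
      have h4 := hlo m hmn
      have h5 := hw m hmn.le
      rw [hsub] at h4 h5
      have hκk := (kpow hS (k + 1)).1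
      set qk : ℝ := (1000 / (9 * κ)) ^ (k + 1) with hqk
      have hq0 : 0 ≤ qk := by
        rw [hqk, hkq]
        positivity
      rw [if_pos hmn.le, hsub]
      have h6 : z' (Sum.inl m) t = z (Sum.inl m) t := by
        simp only [hz']
        rw [if_neg]
        intro h0
        have := Sum.inl_injective h0
        omega
      rw [h6]
      have h7 : Real.exp (μ / 1000) * N m * wz g z m t ≤ 1 * qk * A * N m := by
        calc Real.exp (μ / 1000) * N m * wz g z m t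
            ≤ Real.exp (μ / 1000) * N m * (Real.exp (-(μ / 10)) * qk * A) :=
              mul_le_mul_of_nonneg_left h5 (by positivity)
          _ = (Real.exp (μ / 1000) * Real.exp (-(μ / 10))) * (qk * A * N m) := by
              ring
          _ ≤ (1 / 10 ^ 10) * (qk * A * N m) :=
              mul_le_mul_of_nonneg_right hex1 (by positivity)
          _ ≤ 1 * (qk * A * N m) :=
              mul_le_mul_of_nonneg_right (by norm_num) (by positivity)
          _ = _ := by ring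
      have h8 : |z (Sum.inl m) t| * N m ≤ 200 * qk * A * N m :=
        mul_le_mul_of_nonneg_right h4 (by linarith)
      have h9 := pow_q k
      have h10 := N_pow hc hS m (k + 1)
      calc |z (Sum.inl m) t| * N m + Real.exp (μ / 1000) * N m * wz g z m t
          ≤ (201 * qk) * (A * N m) := by linarith
        _ = (201 * (1000 / 9) ^ (k + 1)) * (A * N m) / κ ^ (k + 1) := by
            rw [hqk, hkq]; ring
        _ ≤ (1 / 20000 * (1 / 2) ^ (k + 1) * 10 ^ (9 * (k + 1))) * (A * N m) / κ ^ (k + 1) := by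
            gcongr
        _ = A * (1 / 20000 * (1 / 2) ^ (k + 1)) * (N m * 10 ^ (9 * (k + 1))) / κ ^ (k + 1) := by
            ring
        _ ≤ A * (1 / 20000 * (1 / 2) ^ (k + 1)) * (κ ^ (k + 1) * N (m + (k + 1))) /
              κ ^ (k + 1) := by
            gcongr
        _ = _ := by
            field_simp
    · -- m = n
      subst hmn
      rw [if_pos le_rfl]
      have h5 := hw m le_rfl
      simp only [Nat.sub_self, pow_zero, mul_one] at h5 ⊢
      have h6 : z' (Sum.inl m) t = 0 := by simp [hz']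
      rw [h6, abs_zero, zero_mul, zero_add]
      calc Real.exp (μ / 1000) * N m * wz g z m t
          ≤ Real.exp (μ / 1000) * N m * (Real.exp (-(μ / 10)) * A) :=
            mul_le_mul_of_nonneg_left h5 (by positivity)
        _ = (Real.exp (μ / 1000) * Real.exp (-(μ / 10))) * (A * N m) := by ring
        _ ≤ (1 / 10 ^ 10) * (A * N m) := mul_le_mul_of_nonneg_right hex1 (by positivity)
        _ ≤ (1 / 20000) * (A * N m) := mul_le_mul_of_nonneg_right (by norm_num) (by positivity)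
        _ = _ := by ring
    · -- m > n
      obtain ⟨k, rfl⟩ : ∃ k, m = n + 1 + k := ⟨m - n - 1, by omega⟩
      rw [if_neg (by omega)]
      have hsub : n + 1 + k - n = k + 1 := by omega
      rw [hsub]
      obtain ⟨h4, h5⟩ := Yt_ge h z t hs (n + 1 + k)
      have h6 : z' (Sum.inl (n + 1 + k)) t = z (Sum.inl (n + 1 + k)) t := by
        simp only [hz']
        rw [if_neg]
        intro h0
        have := Sum.inl_injective h0
        omega
      rw [h6]
      have h7 := hY k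
      have h8 := N_eq hc hlam0 n (k + 1)
      have h8' : N (n + 1 + k) ≤ lam ^ (k + 1) * N n := by
        have : n + 1 + k = n + (k + 1) := by omega
        rw [this]; exact h8
      have hE1 : 1 ≤ Real.exp (μ / 1000) := Real.one_le_exp (by positivity)
      set Y := √(Yt (fun n => z (Sum.inl n)) (wz g z) (n + 1 + k) t) with hYd
      have hY0 : 0 ≤ Y := Real.sqrt_nonneg _
      have h9 : Real.exp (-(μ / 250 * ((k:ℝ) + 1))) = Real.exp (-(μ / 250)) ^ (k + 1) := by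
        rw [← Real.exp_nat_mul]
        congr 1
        push_cast
        ring
      rw [h9] at h7
      have hEk : Real.exp (μ / 1000) ≤ Real.exp (μ / 1000) ^ (k + 1) := by
        rw [pow_succ]
        have : 1 ≤ Real.exp (μ / 1000) ^ k := one_le_pow₀ hE1
        nlinarith
      have h2k : (2:ℝ) ≤ 2 ^ (k + 1) := by
        rw [pow_succ]
        have : (1:ℝ) ≤ 2 ^ k := one_le_pow₀ (by norm_num)
        linarith
      have h40 : ((1:ℝ) / 40000) ^ (k + 1) ≤ 1 / 20000 * (1 / 2) ^ (k + 1) := by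
        have h11 : ((1:ℝ) / 40000) = 1 / 20000 * (1 / 2) := by norm_num
        rw [h11, mul_pow]
        refine mul_le_mul_of_nonneg_right ?_ (by positivity)
        calc ((1:ℝ) / 20000) ^ (k + 1) ≤ (1 / 20000) ^ 1 :=
              pow_le_pow_of_le_one (by norm_num) (by norm_num) (by omega)
          _ = 1 / 20000 := pow_one _
      calc |z (Sum.inl (n + 1 + k)) t| * N (n + 1 + k) +
            Real.exp (μ / 1000) * N (n + 1 + k) * wz g z (n + 1 + k) t
          ≤ Y * N (n + 1 + k) + Real.exp (μ / 1000) * N (n + 1 + k) * Y := by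
            gcongr
        _ ≤ 2 * (Real.exp (μ / 1000) * (Y * N (n + 1 + k))) := by
            have : Y * N (n + 1 + k) ≤ Real.exp (μ / 1000) * (Y * N (n + 1 + k)) := by
              have : 0 ≤ Y * N (n + 1 + k) := by positivity
              nlinarith
            linarith
        _ ≤ 2 ^ (k + 1) * (Real.exp (μ / 1000) ^ (k + 1) *
              ((Real.exp (-(μ / 250)) ^ (k + 1) * A) * (lam ^ (k + 1) * N n))) := by
            gcongr
        _ = (2 * (lam * (Real.exp (μ / 1000) * Real.exp (-(μ / 250))))) ^ (k + 1) *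
              (A * N n) := by
            simp only [mul_pow]; ring
        _ ≤ (1 / 40000) ^ (k + 1) * (A * N n) := by
            gcongr
        _ ≤ (1 / 20000 * (1 / 2) ^ (k + 1)) * (A * N n) :=
            mul_le_mul_of_nonneg_right h40 hAN
        _ = _ := by ring
  have hB : ∀ I : Finset ℕ, ∑ m ∈ I, (A * N n * (1 / 20000) *
      (if m ≤ n then (1 / 2 : ℝ) ^ (n - m) else (1 / 2) ^ (m - n))) ≤ A * N n * (1 / 5000) := by
    intro I
    rw [← Finset.mul_sum]
    have h1 := geo_sum n I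
    calc A * N n * (1 / 20000) * _ ≤ A * N n * (1 / 20000) * 4 :=
          mul_le_mul_of_nonneg_left h1 (by positivity)
      _ = _ := by ring
  have hrest := l1_bound h hz'g _ hb _ hB
  have hrest' := (field_le _ (syn_norm_summable h hz'g) y).trans hrest
  have hmain : A * N n * (99 / 100000) ≤ ‖z (Sum.inl n) t • fieldOf (e (Sum.inl n)) y‖ := by
    rw [norm_smul, Real.norm_eq_abs]
    calc A * N n * (99 / 100000) = (99 / 100 * A) * (N n / 1000) := by ring
      _ ≤ |z (Sum.inl n) t| * ‖fieldOf (e (Sum.inl n)) y‖ :=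
          mul_le_mul (hx.trans (le_abs_self _)) hy' (by positivity) (abs_nonneg _)
  have hfin : ‖z (Sum.inl n) t • fieldOf (e (Sum.inl n)) y‖ ≤
      ‖fieldOf (syn e (fun a => z a t)) y‖ + ‖fieldOf (syn e (fun a => z' a t)) y‖ := by
    have : z (Sum.inl n) t • fieldOf (e (Sum.inl n)) y =
        fieldOf (syn e (fun a => z a t)) y - fieldOf (syn e (fun a => z' a t)) y := by
      rw [hsplit]; abel
    rw [this]
    exact norm_sub_le _ _
  linarith

lemma N_unbounded (hc : Conc4 ν α α' κ μ lam g F L ℓ N G e) (hS : Sq5 κ μ lam Λ M L C ℓ B)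
    (R : ℝ) : ∃ n, R < (9 / 1000 * κ) ^ n * N n := by
  obtain ⟨n, hn⟩ := pow_unbounded_of_one_lt R (one_lt_two)
  refine ⟨n, hn.trans_le ?_⟩
  have h1 := N_pow hc hS 0 n
  rw [zero_add] at h1
  have h2 := N_one hc hS 0
  calc (2:ℝ) ^ n ≤ (9 / 1000 * 10 ^ 9) ^ n := pow_le_pow_left₀ (by norm_num) (by norm_num) n
    _ = (9 / 1000) ^ n * (1 * 10 ^ (9 * n)) := by rw [mul_pow, ← pow_mul, one_mul]
    _ ≤ (9 / 1000) ^ n * (N 0 * 10 ^ (9 * n)) := by gcongr
    _ ≤ (9 / 1000) ^ n * (κ ^ n * N n) := mul_le_mul_of_nonneg_left h1 (by positivity)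
    _ = (9 / 1000 * κ) ^ n * N n := by rw [mul_pow]; ring

end conc

end Pool.Agent.Y340.EP
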