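import Pool.Agent.Y8.EP.St

/-! Pointwise facts during a stage (endpoint dynamics). -/

open Set Filter Topology MeasureTheory

set_option autoImplicit false

namespace Pool.Agent.Y340.EP

open Pool.Agent.Y5.E (At Aw Ut Uw loc)
open Pool.Agent.Y5.F (vfk Yk Wk)
open Pool.Agent.Y8.EP

section seq

variable {κ lam N : ℝ} {L C ℓ : ℕ → ℝ} {B : ℕ → ℕ → ℝ}

lemma dd_pos (lam : ℝ) : 0 < dd lam := Real.exp_pos _

/-- `N * lam * 10^20 * dd` is tiny compared with `C n` -/
lemma dd_C (q : Pe κ lam N L C ℓ B) (n : ℕ) :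
    10 ^ 20 * N * lam * dd lam ≤ 1 / 10 ^ 20 * C n := by
  have h1 := q.NE
  have h2 := q.EE_big
  have h3 := EE_pos lam
  have h4 := q.EE_lam
  have h5 := q.C_lo n
  have hN := q.N_one
  have hl := q.lamp
  have hC := q.Cp n
  have hd := dd_pos lam
  have hlE : lam ≤ EE lam := by linarith
  have h6 : EE lam ^ 3 * Real.exp (-(1 / 2) * lam)
      ≤ Real.exp (-(601 / 10000 + 1 / 10) * lam) := q.EE_exp 3 (by norm_num)
  have h7 : Real.exp (-(601 / 10000 + 1 / 10) * lam)
      = Real.exp (-(601 / 10000) * lam) * Real.exp (-(1 / 10) * lam) := by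
    rw [← Real.exp_add]; congr 1; ring
  have h8 : Real.exp (-(1 / 10) * lam) ≤ 1 / 10 ^ 20 := q.exp_small (by norm_num)
  have h9 : (0 : ℝ) < Real.exp (-(601 / 10000) * lam) := Real.exp_pos _
  calc 10 ^ 20 * N * lam * dd lam ≤ EE lam * EE lam * EE lam * dd lam := by
        gcongr
        linarith
    _ = EE lam ^ 3 * Real.exp (-(1 / 2) * lam) := by rw [dd]; ring
    _ ≤ Real.exp (-(601 / 10000) * lam) * Real.exp (-(1 / 10) * lam) := by
        rw [← h7]; exact h6
    _ ≤ C n * (1 / 10 ^ 20) := by gcongr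
    _ = _ := by ring

lemma N_dd (q : Pe κ lam N L C ℓ B) : 10 ^ 20 * N * lam * dd lam ≤ 1 / 10 ^ 20 := by
  refine (dd_C q 0).trans ?_
  have := q.C_small 0
  linarith

lemma dd_small (q : Pe κ lam N L C ℓ B) : dd lam ≤ 1 / 10 ^ 20 := q.exp_small (by norm_num)

/-- the barrier exponent -/
lemma th_le (q : Pe κ lam N L C ℓ B) {x : ℕ → ℝ → ℝ} {n : ℕ} {t : ℝ}
    (h2 : zz C x n t ≤ 1 + C n) : th lam C x n t ≤ 558 / 10000 * lam := by
  have hCs := q.C_small n
  have hl := q.lamp
  unfold th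
  have h3 : max (zz C x n t - 8952 / 10000) 0 ≤ 1048 / 10000 + 1 / 10 ^ 20 :=
    max_le (by linarith) (by norm_num)
  have h4 : (0 : ℝ) ≤ max (zz C x n t - 8952 / 10000) 0 := le_max_right _ _
  calc 1000 / 197 * lam * max (zz C x n t - 8952 / 10000) 0 ^ 2
      ≤ 1000 / 197 * lam * (1048 / 10000 + 1 / 10 ^ 20) ^ 2 := by gcongr
    _ = (1000 / 197 * (1048 / 10000 + 1 / 10 ^ 20) ^ 2) * lam := by ring
    _ ≤ _ := by
        gcongr ?_ * _
        norm_num

/-- the square of the barrier is tiny compared with `z` -/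
lemma bb_z (q : Pe κ lam N L C ℓ B) {x : ℕ → ℝ → ℝ} {n : ℕ} {t : ℝ}
    (h1 : 3 / 4 * C n ≤ zz C x n t) (h2 : zz C x n t ≤ 1 + C n) :
    bb lam C x n 0 t ^ 2 ≤ 2 * Real.exp (-(8 / 1000) * lam) * zz C x n t ∧
    bb lam C x n 0 t ≤ 1 / 10 ^ 20 := by
  have hC := q.Cp n
  have hl := q.lamp
  have hth := th_le q h2
  have e : Pp (0 + 1) = 598 / 10000 := by simp [Pp]; norm_num
  have hb : bb lam C x n 0 t = Real.exp (-(598 / 10000) * lam) * Real.exp (th lam C x n t) := by
    rw [bb, e]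
  have hb2 : bb lam C x n 0 t ^ 2
      = Real.exp (-(1196 / 10000) * lam) * Real.exp (2 * th lam C x n t) := by
    rw [hb, mul_pow, ← Real.exp_nat_mul, ← Real.exp_nat_mul]
    congr 2 <;> (push_cast; ring)
  constructor
  · rcases le_total (zz C x n t) (8952 / 10000) with h | h
    · have hth0 : th lam C x n t = 0 := by
        unfold th
        rw [max_eq_right (by linarith)]; ring
      rw [hb2, hth0, mul_zero, Real.exp_zero, mul_one]
      have h5 := q.C_lo n
      have h6 : Real.exp (-(1196 / 10000) * lam)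
          ≤ Real.exp (-(8 / 1000) * lam) * Real.exp (-(601 / 10000) * lam) := by
        rw [← Real.exp_add]
        apply Real.exp_le_exp.2
        linarith
      have h7 := Real.exp_pos (-(8 / 1000) * lam)
      calc Real.exp (-(1196 / 10000) * lam)
          ≤ Real.exp (-(8 / 1000) * lam) * Real.exp (-(601 / 10000) * lam) := h6
        _ ≤ Real.exp (-(8 / 1000) * lam) * (2 * zz C x n t) := by
            gcongr
            linarith
        _ = _ := by ring
    · rw [hb2]
      have h6 : Real.exp (-(1196 / 10000) * lam) * Real.exp (2 * th lam C x n t)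
          ≤ Real.exp (-(8 / 1000) * lam) := by
        rw [← Real.exp_add]
        apply Real.exp_le_exp.2
        linarith
      have h7 := Real.exp_pos (-(8 / 1000) * lam)
      refine h6.trans ?_
      have h8 : 1 ≤ 2 * zz C x n t := by linarith
      calc Real.exp (-(8 / 1000) * lam) = Real.exp (-(8 / 1000) * lam) * 1 := (mul_one _).symm
        _ ≤ Real.exp (-(8 / 1000) * lam) * (2 * zz C x n t) := by gcongr
        _ = _ := by ring
  · rw [hb, ← Real.exp_add]
    refine le_trans ?_ (q.exp_small (β := -(4 / 1000)) (by norm_num))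
    apply Real.exp_le_exp.2
    linarith

end seq

/-- Pointwise facts. -/
structure Pw (κ lam : ℝ) (L C : ℕ → ℝ) (T : ℝ) (x w : ℕ → ℝ → ℝ) (n : ℕ)
    (t : ℝ) : Prop where
  mem : t ∈ Ico 0 T
  X1 : 99 / 100 < x n t
  X2 : x n t ≤ 3 / 2
  z1 : 3 / 4 * C n ≤ zz C x n t
  z2 : zz C x n t ≤ 1 + C n
  z0 : 0 < zz C x n t
  Z : |x (n + 1) t| ≤ zz C x n t
  Z1 : |x (n + 1) t| ≤ 1
  Y1 : √(Yk κ x w (n + 1) t) ≤ 1
  W1 : √(Wk κ w (n + 1) t) ≤ 4 * dd lam
  w1 : w (n + 1) t ≤ 4 * dd lam
  Y2 : √(Yk κ x w (n + 2) t) ≤ 2 * bb lam C x n 0 t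
  Y2s : √(Yk κ x w (n + 2) t) ≤ 1 / 10 ^ 19
  low : Low lam L x w n t
  Yn : √(Yk κ x w n t) ≤ 3 / 2
  wn : w n t ≤ dd lam
  Wn : √(Wk κ w n t) ≤ 5 * dd lam
  A1 : At lam x w (n + 1) t ≤ 16 / 10
  U1 : Ut L x (n + 1) t ≤ 1501 / 1000 * (L n / lam) + L n * x n t
  Uw1 : Uw L w (n + 1) t ≤ 2 * dd lam * L n
  Aw1 : Aw lam w (n + 1) t ≤ 2 * dd lam
  lc1 : loc L x w (n + 1) t ≤ 7 * dd lam * L n

variable {κ lam N : ℝ} {L C ℓ : ℕ → ℝ} {B : ℕ → ℕ → ℝ} {T : ℝ} {x w f : ℕ → ℝ → ℝ}
variable {n : ℕ} {σ : ℕ → ℝ} {t1 t : ℝ}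

lemma sqrtW_succ (g : Gd κ lam N L C ℓ B T x w f) {t : ℝ} (ht : t ∈ Ico 0 T) (m : ℕ) :
    √(Wk κ w m t) ≤ w m t + √(Wk κ w (m + 1) t) := by
  refine (Real.sqrt_le_sqrt (g.W_succ_le ht m)).trans ?_
  have hw0 := g.sy.w0 m t ht
  have h3 := Real.sqrt_nonneg (Wk κ w (m + 1) t)
  have h4 := Real.sq_sqrt (g.W_nonneg (m + 1) t)
  apply Real.sqrt_le_iff.2
  constructor
  · positivity
  · nlinarith [mul_nonneg hw0 h3]

lemma σnn (h : Stg κ lam L T x w n σ) {i : ℕ} (hi : i ≤ n) : 0 ≤ σ i := by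
  induction i with
  | zero => rw [h.σ0]
  | succ i ih => exact (ih (by omega)).trans (h.σlt i (by omega)).le

lemma memI (h : Stg κ lam L T x w n σ) (hc : Cur κ lam L T x w n σ t1) {t : ℝ}
    (ht : t ∈ Ico (σ n) t1) : t ∈ Ico 0 T :=
  ⟨(σnn h le_rfl).trans ht.1, ht.2.trans_le hc.leT⟩

lemma Y1le (hc : Cur κ lam L T x w n σ t1) {t : ℝ}
    (ht : t ∈ Ico (σ n) t1) : √(Yk κ x w (n + 1) t) ≤ 1 :=
  Real.sqrt_le_iff.2 ⟨by norm_num, by simpa using (hc.act t ht).1.le⟩

lemma zzle (g : Gd κ lam N L C ℓ B T x w f) (h : Stg κ lam L T x w n σ)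
    (hc : Cur κ lam L T x w n σ t1) {t : ℝ} (ht : t ∈ Ico (σ n) t1) :
    zz C x n t ≤ 1 + C n := by
  have h1 := (le_abs_self _).trans ((g.x_le (memI h hc ht) ((n + 1))).trans (Y1le hc ht))
  unfold zz
  linarith

/-- the pointwise facts hold under the bootstrap hypotheses -/
lemma pw (g : Gd κ lam N L C ℓ B T x w f) (h : Stg κ lam L T x w n σ)
    (hc : Cur κ lam L T x w n σ t1) (hub : Ub κ lam L x w n σ t1) {t : ℝ}
    (ht : t ∈ Ico (σ n) t1) (hy : Hy κ lam C x w n t) : Pw κ lam L C T x w n t := by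
  have q := g.q
  have hI := memI h hc ht
  have hC := q.Cp n
  have hCs := q.C_small n
  have hl := q.lamp
  have hlb := q.lam_big
  have hL := q.Lp n
  have hd := dd_pos lam
  have hds := dd_small q
  have hs := q.sq_lam
  have hs0 := q.sq_lam0
  have hlow := hub.low n le_rfl t ht
  have hYn := hub.Y n le_rfl t ht
  have hwn := hub.w n le_rfl t ht
  have hX1 := (hc.act t ht).2
  have hX : 0 < x n t := by linarith
  have hX2 : x n t ≤ 3 / 2 := ((le_abs_self _).trans (g.x_le hI n)).trans hYn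
  have hz1 : 3 / 4 * C n ≤ zz C x n t := by
    have := hy.r
    unfold zz
    linarith
  have hz2 := zzle g h hc ht
  have hZ : |x (n + 1) t| ≤ zz C x n t := by
    have := hy.r
    unfold zz
    rw [abs_le]
    constructor <;> linarith
  have hZ1 : |x (n + 1) t| ≤ 1 := (g.x_le hI (n + 1)).trans (Y1le hc ht)
  obtain ⟨hb1, hb2⟩ := bb_z q hz1 hz2
  have hw0 := g.sy.w0
  have hw1 : w (n + 1) t ≤ √(Wk κ w (n + 1) t) := by
    refine Real.le_sqrt_of_sq_le ?_
    rw [g.W_succ hI]
    have := mul_nonneg (q.κk0 2).le (g.W_nonneg (n + 1 + 1) t)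
    linarith
  have hW1 := hy.W.le
  have hY2 := hy.Y.le
  have hxn : |x n t| = x n t := abs_of_pos hX
  have hWn : √(Wk κ w n t) ≤ 5 * dd lam := by
    have h1 := sqrtW_succ g hI n
    linarith
  have hU1 : Ut L x (n + 1) t ≤ 1501 / 1000 * (L n / lam) + L n * x n t := by
    rw [Gd.U_succ, hxn]
    have := hlow.U
    linarith
  have hA1 : At lam x w (n + 1) t ≤ 16 / 10 := by
    rw [Gd.A_succ, hxn]
    have h1 := hlow.A
    have h2 := g.A_nonneg hI n
    have h3 : (√lam)⁻¹ * At lam x w n t ≤ 1 / 10 ^ 15 * (1501 / 1000) := by gcongr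
    linarith
  have hLl : L n / lam ≤ 1 / 10 ^ 20 * L n := by
    rw [div_le_iff₀ hl]
    have : 1 ≤ 1 / 10 ^ 20 * lam := by linarith
    calc L n = L n * 1 := (mul_one _).symm
      _ ≤ L n * (1 / 10 ^ 20 * lam) := by gcongr
      _ = _ := by ring
  have hUw1 : Uw L w (n + 1) t ≤ 2 * dd lam * L n := by
    rw [Gd.Uw_succ]
    have h1 := hlow.Uw
    have h2 : L n * w n t ≤ dd lam * L n := by
      calc L n * w n t ≤ L n * dd lam := by gcongr
        _ = _ := by ring
    have h3 : 2 * dd lam * (L n / lam) ≤ 2 * dd lam * (1 / 10 ^ 20 * L n) := by gcongr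
    have h4 : 0 < dd lam * L n := by positivity
    linarith
  have hAw1 : Aw lam w (n + 1) t ≤ 2 * dd lam := by
    rw [Gd.Aw_succ]
    have h1 := hlow.Aw
    have h2 := g.Aw_nonneg hI n
    have h3 : (√lam)⁻¹ * Aw lam w n t ≤ 1 / 10 ^ 15 * (2 * dd lam) := by gcongr
    linarith
  have hlc1 : loc L x w (n + 1) t ≤ 7 * dd lam * L n := by
    have hm : ¬ (n + 1 = 0) := Nat.succ_ne_zero n
    rw [loc, if_neg hm, Nat.add_sub_cancel]
    have hzn : |x n t| + w n t ≤ 1501 / 1000 := by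
      rw [hxn]
      linarith
    have hz2 : |x (n + 1 - 2) t| + w (n + 1 - 2) t ≤ 1501 / 1000 := by
      rcases n with _ | m
      · simp only [Nat.zero_add, Nat.reduceSubDiff] at *
        linarith
      · have e : m + 1 + 1 - 2 = m := by omega
        rw [e]
        have := hlow.z (Nat.succ_ne_zero m)
        rwa [Nat.add_sub_cancel] at this
    have hw2 : w (n + 1 - 2) t ≤ dd lam := by
      rcases n with _ | m
      · simp only [Nat.zero_add, Nat.reduceSubDiff] at *
        linarith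
      · have e : m + 1 + 1 - 2 = m := by omega
        rw [e]
        have := hlow.wz (Nat.succ_ne_zero m)
        rwa [Nat.add_sub_cancel] at this
    have hw0' := hw0 (n + 1 - 2) t hI
    have hw0'' := hw0 n t hI
    have hs1 : |x n t| + w n t + |x (n + 1 - 2) t| + w (n + 1 - 2) t ≤ 3002 / 1000 := by
      linarith
    have hs2 : w n t + w (n + 1 - 2) t ≤ 2 * dd lam := by linarith
    calc L n * ((|x n t| + w n t + |x (n + 1 - 2) t| + w (n + 1 - 2) t)
            * (w n t + w (n + 1 - 2) t))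
        ≤ L n * ((3002 / 1000) * (2 * dd lam)) := by gcongr
      _ = (3002 / 1000 * 2) * (dd lam * L n) := by ring
      _ ≤ 7 * (dd lam * L n) := by gcongr ?_ * _; norm_num
      _ = _ := by ring
  exact ⟨hI, hX1, hX2, hz1, hz2, by linarith, hZ, hZ1, Y1le hc ht, hW1, hw1.trans hW1, hY2,
    by linarith, hlow, hYn, hwn, hWn, hA1, hU1, hUw1, hAw1, hlc1⟩

/-- the force on the mode `n+1` -/
lemma f1 (g : Gd κ lam N L C ℓ B T x w f) (p : Pw κ lam L C T x w n t) :
    |f (n + 1) t| ≤ 1 / 10 ^ 20 * (L n * zz C x n t) := by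
  have q := g.q
  have hf := g.sy.fb (n + 1) t p.mem
  have hL := q.Lp n
  have hd := dd_pos lam
  have hl := q.lamp
  have hl1 := q.lam1
  have hN := q.N_one
  have hA0 := g.A_nonneg p.mem (n + 1)
  have hAw0 := g.Aw_nonneg p.mem (n + 1)
  have hU0 := g.Uw_nonneg p.mem (n + 1)
  have s1 : L (n + 1) * (At lam x w (n + 1) t + √(Yk κ x w (n + 1) t)) * √(Wk κ w (n + 1) t)
      ≤ 11 * lam * dd lam * L n := by
    rw [q.L_succ n]
    calc lam * L n * (At lam x w (n + 1) t + √(Yk κ x w (n + 1) t)) * √(Wk κ w (n + 1) t)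
        ≤ lam * L n * (16 / 10 + 1) * (4 * dd lam) := by
          have := p.A1
          have := p.W1
          have := p.Y1
          gcongr
      _ = (104 / 10) * (lam * dd lam * L n) := by ring
      _ ≤ 11 * (lam * dd lam * L n) := by gcongr ?_ * _; norm_num
      _ = _ := by ring
  have s2 : Uw L w (n + 1) t * √(Yk κ x w (n + 1) t) ≤ 2 * lam * dd lam * L n := by
    calc Uw L w (n + 1) t * √(Yk κ x w (n + 1) t)
        ≤ (2 * dd lam * L n) * 1 := by
          have := p.Uw1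
          have := p.Y1
          gcongr
      _ = 2 * 1 * dd lam * L n := by ring
      _ ≤ 2 * lam * dd lam * L n := by gcongr
  have s3 : L (n + 1) * Aw lam w (n + 1) t * √(Yk κ x w (n + 1 + 1) t)
      ≤ 2 * lam * dd lam * L n := by
    rw [q.L_succ n]
    have h2 : √(Yk κ x w (n + 1 + 1) t) ≤ 1 := p.Y2s.trans (by norm_num)
    calc lam * L n * Aw lam w (n + 1) t * √(Yk κ x w (n + 1 + 1) t)
        ≤ lam * L n * (2 * dd lam) * 1 := by
          have := p.Aw1
          gcongr
      _ = _ := by ring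
  have s4 : loc L x w (n + 1) t ≤ 7 * lam * dd lam * L n := by
    calc loc L x w (n + 1) t ≤ 7 * dd lam * L n := p.lc1
      _ = 7 * 1 * dd lam * L n := by ring
      _ ≤ 7 * lam * dd lam * L n := by gcongr
  have hsm := dd_C q n
  have hz := p.z1
  have hz0 := p.z0
  calc |f (n + 1) t| ≤ N * (11 * lam * dd lam * L n + 2 * lam * dd lam * L n
        + 2 * lam * dd lam * L n + 7 * lam * dd lam * L n) := by
        refine hf.trans ?_
        gcongr
    _ = 22 * (N * lam * dd lam) * L n := by ring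
    _ ≤ (1 / 2 * 10 ^ 20) * (N * lam * dd lam) * L n := by
        gcongr ?_ * _ * _
        norm_num
    _ = 1 / 2 * (10 ^ 20 * N * lam * dd lam) * L n := by ring
    _ ≤ 1 / 2 * (1 / 10 ^ 20 * C n) * L n := by gcongr
    _ ≤ 1 / 2 * (1 / 10 ^ 20 * (2 * zz C x n t)) * L n := by
        gcongr
        linarith
    _ = _ := by ring

/-- the force on the mode `n` -/
lemma f0 (g : Gd κ lam N L C ℓ B T x w f) (p : Pw κ lam L C T x w n t) :
    |f n t| ≤ 1 / 10 ^ 20 * (L n * zz C x n t) := by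
  have q := g.q
  have hf := g.sy.fb n t p.mem
  have hL := q.Lp n
  have hd := dd_pos lam
  have hl := q.lamp
  have hl1 := q.lam1
  have hN := q.N_one
  have hA0 := g.A_nonneg p.mem n
  have hAw0 := g.Aw_nonneg p.mem n
  have hU0 := g.Uw_nonneg p.mem n
  have hLl : L n / lam ≤ L n := div_le_self hL.le hl1
  have s1 : L n * (At lam x w n t + √(Yk κ x w n t)) * √(Wk κ w n t)
      ≤ 16 * dd lam * L n := by
    calc L n * (At lam x w n t + √(Yk κ x w n t)) * √(Wk κ w n t)
        ≤ L n * (1501 / 1000 + 3 / 2) * (5 * dd lam) := by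
          have := p.low.A
          have := p.Yn
          have := p.Wn
          gcongr
      _ = (3001 / 1000 * 5) * (dd lam * L n) := by ring
      _ ≤ 16 * (dd lam * L n) := by gcongr ?_ * _; norm_num
      _ = _ := by ring
  have s2 : Uw L w n t * √(Yk κ x w n t) ≤ 3 * dd lam * L n := by
    calc Uw L w n t * √(Yk κ x w n t) ≤ (2 * dd lam * L n) * (3 / 2) := by
          have h1 := p.low.Uw
          have h2 : 2 * dd lam * (L n / lam) ≤ 2 * dd lam * L n := by
            gcongr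
          have h3 := h1.trans h2
          have := p.Yn
          gcongr
      _ = _ := by ring
  have s3 : L n * Aw lam w n t * √(Yk κ x w (n + 1) t) ≤ 2 * dd lam * L n := by
    calc L n * Aw lam w n t * √(Yk κ x w (n + 1) t) ≤ L n * (2 * dd lam) * 1 := by
          have := p.low.Aw
          have := p.Y1
          gcongr
      _ = _ := by ring
  have s4 : loc L x w n t ≤ 20 * dd lam * L n := by
    calc loc L x w n t ≤ 20 * dd lam * (L n / lam) := p.low.lc
      _ ≤ 20 * dd lam * L n := by gcongr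
  have hsm := dd_C q n
  have hz := p.z1
  have hz0 := p.z0
  calc |f n t| ≤ N * (16 * dd lam * L n + 3 * dd lam * L n
        + 2 * dd lam * L n + 20 * dd lam * L n) := by
        refine hf.trans ?_
        gcongr
    _ = 41 * (N * 1 * dd lam) * L n := by ring
    _ ≤ (1 / 2 * 10 ^ 20) * (N * lam * dd lam) * L n := by
        gcongr ?_ * (_ * ?_ * _) * _
        norm_num
    _ = 1 / 2 * (10 ^ 20 * N * lam * dd lam) * L n := by ring
    _ ≤ 1 / 2 * (1 / 10 ^ 20 * C n) * L n := by gcongr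
    _ ≤ 1 / 2 * (1 / 10 ^ 20 * (2 * zz C x n t)) * L n := by
        gcongr
        linarith
    _ = _ := by ring

/-- the force on the previous mode -/
lemma fp (g : Gd κ lam N L C ℓ B T x w f) {m : ℕ} (h : Stg κ lam L T x w (m + 1) σ)
    (hub : Ub κ lam L x w (m + 1) σ t1) (ht : t ∈ Ico (σ (m + 1)) t1)
    (p : Pw κ lam L C T x w (m + 1) t) :
    |f m t| ≤ 1 / 10 ^ 20 * L m := by
  have q := g.q
  have hf := g.sy.fb m t p.mem
  have hL := q.Lp m
  have hd := dd_pos lam
  have hl := q.lamp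
  have hl1 := q.lam1
  have hN := q.N_one
  have hmt : t ∈ Ico (σ m) t1 := ⟨(h.σlt m (by omega)).le.trans ht.1, ht.2⟩
  have hlow := hub.low m (by omega) t hmt
  have hYm := hub.Y m (by omega) t hmt
  have hwm := hub.w m (by omega) t hmt
  have hYn := p.Yn
  have hA0 := g.A_nonneg p.mem m
  have hAw0 := g.Aw_nonneg p.mem m
  have hU0 := g.Uw_nonneg p.mem m
  have hLl : L m / lam ≤ L m := div_le_self hL.le hl1
  have hW : √(Wk κ w m t) ≤ 6 * dd lam := by
    have h1 : √(Wk κ w m t) ≤ w m t + √(Wk κ w (m + 1) t) := sqrtW_succ g p.mem m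
    have := p.Wn
    linarith
  have s1 : L m * (At lam x w m t + √(Yk κ x w m t)) * √(Wk κ w m t)
      ≤ 20 * dd lam * L m := by
    calc L m * (At lam x w m t + √(Yk κ x w m t)) * √(Wk κ w m t)
        ≤ L m * (1501 / 1000 + 3 / 2) * (6 * dd lam) := by
          have := hlow.A
          gcongr
      _ = (3001 / 1000 * 6) * (dd lam * L m) := by ring
      _ ≤ 20 * (dd lam * L m) := by gcongr ?_ * _; norm_num
      _ = _ := by ring
  have s2 : Uw L w m t * √(Yk κ x w m t) ≤ 3 * dd lam * L m := by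
    calc Uw L w m t * √(Yk κ x w m t) ≤ (2 * dd lam * L m) * (3 / 2) := by
          have h1 := hlow.Uw
          have h2 : 2 * dd lam * (L m / lam) ≤ 2 * dd lam * L m := by
            gcongr
          have h3 := h1.trans h2
          gcongr
      _ = _ := by ring
  have s3 : L m * Aw lam w m t * √(Yk κ x w (m + 1) t) ≤ 3 * dd lam * L m := by
    calc L m * Aw lam w m t * √(Yk κ x w (m + 1) t) ≤ L m * (2 * dd lam) * (3 / 2) := by
          have := hlow.Aw
          gcongr
      _ = _ := by ring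
  have s4 : loc L x w m t ≤ 20 * dd lam * L m := by
    calc loc L x w m t ≤ 20 * dd lam * (L m / lam) := hlow.lc
      _ ≤ 20 * dd lam * L m := by gcongr
  have hsm := N_dd q
  calc |f m t| ≤ N * (20 * dd lam * L m + 3 * dd lam * L m
        + 3 * dd lam * L m + 20 * dd lam * L m) := by
        refine hf.trans ?_
        gcongr
    _ = 46 * (N * 1 * dd lam) * L m := by ring
    _ ≤ 10 ^ 20 * (N * lam * dd lam) * L m := by
        gcongr ?_ * (_ * ?_ * _) * _
        norm_num
    _ = (10 ^ 20 * N * lam * dd lam) * L m := by ring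
    _ ≤ _ := by gcongr

end Pool.Agent.Y340.EP
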