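import Pool.Agent.Y340.EP.Rat1

/-! Growth rates during a stage (endpoint dynamics). -/

open Set Filter Topology MeasureTheory

set_option autoImplicit false

namespace Pool.Agent.Y340.EP

open Pool.Agent.Y5 (mono_of)
open Pool.Agent.Y5.E (At Aw Ut Uw loc)
open Pool.Agent.Y5.F (vfk Yk Wk)
open Pool.Agent.Y8.EP

variable {κ lam N : ℝ} {L C ℓ : ℕ → ℝ} {B : ℕ → ℕ → ℝ} {T : ℝ} {x w f : ℕ → ℝ → ℝ}
variable {n : ℕ} {σ : ℕ → ℝ} {t1 t : ℝ}

lemma L_lam (q : Pe κ lam N L C ℓ B) (m : ℕ) : L m / lam ≤ 1 / 10 ^ 30 * L m := by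
  have hl := q.lamp
  have hlb := q.lam_big
  have hL := q.Lp m
  rw [div_le_iff₀ hl]
  have : 1 ≤ 1 / 10 ^ 30 * lam := by linarith
  calc L m = L m * 1 := (mul_one _).symm
    _ ≤ L m * (1 / 10 ^ 30 * lam) := by gcongr
    _ = _ := by ring

/-- `lam` times the barrier is tiny -/
lemma lam_exp (q : Pe κ lam N L C ℓ B) : lam * Real.exp (-(8 / 1000) * lam) ≤ 1 / 10 ^ 20 := by
  have h3 := q.EE_small 1 (α := -(8 / 1000)) (by norm_num)
  have h4 := q.EE_lam
  have hl := q.lamp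
  have h5 := Real.exp_pos (-(8 / 1000) * lam)
  calc lam * Real.exp (-(8 / 1000) * lam) ≤ EE lam ^ 1 * Real.exp (-(8 / 1000) * lam) := by
        gcongr
        rw [pow_one]
        linarith
    _ ≤ _ := h3

/-- the tail energy -/
lemma Y2z (g : Gd κ lam N L C ℓ B T x w f) (p : Pw κ lam L C T x w n t) :
    lam * Yk κ x w (n + 2) t ≤ 1 / 10 ^ 19 * zz C x n t := by
  have q := g.q
  obtain ⟨h1, _⟩ := bb_z q p.z1 p.z2
  have h2 := p.Y2
  have hl := q.lamp
  have hz := p.z0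
  have h3 := lam_exp q
  have h4 : Yk κ x w (n + 2) t ≤ 4 * bb lam C x n 0 t ^ 2 := by
    calc Yk κ x w (n + 2) t = √(Yk κ x w (n + 2) t) ^ 2 := (Real.sq_sqrt (g.Y_nonneg _ _)).symm
      _ ≤ (2 * bb lam C x n 0 t) ^ 2 := by gcongr
      _ = _ := by ring
  calc lam * Yk κ x w (n + 2) t
      ≤ lam * (4 * (2 * Real.exp (-(8 / 1000) * lam) * zz C x n t)) := by
        gcongr
        linarith
    _ = 8 * (lam * Real.exp (-(8 / 1000) * lam)) * zz C x n t := by ring
    _ ≤ 8 * (1 / 10 ^ 20) * zz C x n t := by gcongr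
    _ ≤ _ := by gcongr ?_ * _; norm_num

/-- real algebra for the growth rate -/
lemma zrate {X Z c R L v X0 K S l e1 e2 e3 e4 b : ℝ} (hL : 0 < L) (hX0 : 99 / 100 ≤ X0)
    (hX : X0 ≤ X) (hX2 : X ≤ 3 / 2) (hc : 0 < c)
    (hb1 : 999 / 1000 ≤ b) (hb2 : b ≤ 1001 / 1000) (hl : l = 9 / 10 * L)
    (hS : S = e4 + L * b * X) (he4 : |e4| ≤ 1 / 10 ^ 20 * L)
    (hR : R = S - l) (hr : -(c / 4) ≤ Z)
    (he1 : |e1| ≤ 1 / 10 ^ 20 * (L * (Z + c))) (he2 : e2 ≤ 1 / 10 ^ 20 * (L * (Z + c)))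
    (he3 : |e3| ≤ 1 / 10 ^ 20 * (L * (Z + c)))
    (hv : v = L * c * X ^ 2 + Z * R - e1 - e2 + e3)
    (hK : K ≤ 999 / 1000 * X0 - 9 / 10 - 1 / 10 ^ 10) (hK1 : K ≤ 7 / 10) (hK0 : 0 ≤ K) :
    K * (L * (Z + c)) ≤ v := by
  have h1 := (abs_le.1 he1).2
  have h3 := (abs_le.1 he3).1
  have h4 := abs_le.1 he4
  have hZc : 0 < Z + c := by linarith
  have hLz : 0 < L * (Z + c) := by positivity
  have hLc : 0 < L * c := by positivity
  have hXX : 98 / 100 ≤ X ^ 2 := by nlinarith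
  have hXpos : 0 < X := by linarith
  rcases le_total 0 Z with hZ | hZ
  · have hR1 : (999 / 1000 * X0 - 9 / 10 - 1 / 10 ^ 20) * L ≤ R := by
      have h5 : L * (999 / 1000) * X0 ≤ L * b * X := by gcongr
      rw [hR, hS, hl]
      linarith
    have h6 : (999 / 1000 * X0 - 9 / 10 - 1 / 10 ^ 20) * L * Z ≤ R * Z := by gcongr
    have h7 : L * c * (98 / 100) ≤ L * c * X ^ 2 := by gcongr
    have h8 : (K + 1 / 10 ^ 10 - 1 / 10 ^ 20) * (L * Z)
        ≤ (999 / 1000 * X0 - 9 / 10 - 1 / 10 ^ 20) * (L * Z) := by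
      gcongr
      linarith
    have h9 : K * (L * c) ≤ 7 / 10 * (L * c) := by gcongr
    have h10 : 0 ≤ L * Z := by positivity
    rw [hv]
    nlinarith
  · have hR1 : R ≤ 61 / 100 * L := by
      have h5 : L * b * X ≤ L * (1001 / 1000) * (3 / 2) := by gcongr
      rw [hR, hS, hl]
      linarith
    have h6 : 61 / 100 * L * Z ≤ R * Z := mul_le_mul_of_nonpos_right hR1 hZ
    have h7 : L * c * (98 / 100) ≤ L * c * X ^ 2 := by gcongr
    have h9 : K * (L * (Z + c)) ≤ 7 / 10 * (L * (Z + c)) := by gcongr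
    have h10 : L * Z ≤ 0 := mul_nonpos_of_nonneg_of_nonpos hL.le hZ
    have h11 : -(L * (c / 4)) ≤ L * Z := by nlinarith
    rw [hv]
    nlinarith

/-- lower bound for the growth of the mode `n+1` -/
lemma Zder (g : Gd κ lam N L C ℓ B T x w f) (p : Pw κ lam L C T x w n t) {X0 K : ℝ}
    (hX0 : 99 / 100 ≤ X0) (hX : X0 ≤ x n t)
    (hK : K ≤ 999 / 1000 * X0 - 9 / 10 - 1 / 10 ^ 10) (hK1 : K ≤ 7 / 10) (hK0 : 0 ≤ K) :
    K * (L n * zz C x n t) ≤ vfk κ L C ℓ B (fun k => x k t) (n + 1) + f (n + 1) t := by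
  have q := g.q
  have hL := q.Lp n
  have hl := q.lamp
  have hC := q.Cp n
  have hz := p.z0
  obtain ⟨h1, h2, h3, h4⟩ := g.vf_terms p.mem (n + 1)
  have hz' : zz C x n t = x (n + 1) t + C n := rfl
  -- e1
  have he1 : |κ ^ 2 * (L (n + 1) * C (n + 1) * x (n + 1) t * x (n + 1 + 1) t)|
      ≤ 1 / 10 ^ 20 * (L n * zz C x n t) := by
    refine h4.trans ?_
    have h5 : |x (n + 1 + 1) t| ≤ 1 :=
      (g.x_le p.mem (n + 2)).trans (p.Y2s.trans (by norm_num))
    have h6 : C (n + 1) * lam ≤ 1 / 10 ^ 20 := by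
      have h7 := q.EE_small 1 (α := -(599 / 10000)) (by norm_num)
      have h8 := q.EE_lam
      have h9 := q.C_hi (n + 1)
      have h10 := Real.exp_pos (-(599 / 10000) * lam)
      calc C (n + 1) * lam ≤ Real.exp (-(599 / 10000) * lam) * EE lam ^ 1 := by
            gcongr
            rw [pow_one]; linarith
        _ = EE lam ^ 1 * Real.exp (-(599 / 10000) * lam) := mul_comm _ _
        _ ≤ _ := h7
    have hCp := q.Cp (n + 1)
    rw [q.L_succ n]
    calc C (n + 1) * (lam * L n) * |x (n + 1 + 1) t| * |x (n + 1) t|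
        ≤ C (n + 1) * (lam * L n) * 1 * zz C x n t := by
          have := p.Z
          gcongr
      _ = (C (n + 1) * lam) * (L n * zz C x n t) := by ring
      _ ≤ _ := by gcongr
  -- e2
  have he2 : L (n + 1) * ∑' k : ℕ, B (n + 1) (n + 1 + 1 + k) *
      (κ ^ (2 * (k + 1)) * x (n + 1 + 1 + k) t ^ 2) ≤ 1 / 10 ^ 20 * (L n * zz C x n t) := by
    refine h3.trans ?_
    have h5 := Y2z g p
    have h6 := q.κsq_s
    have h7 := g.Y_nonneg (n + 2) t
    rw [q.L_succ n]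
    calc 1001 / 1000 * (lam * L n) * (κ ^ 2 * Yk κ x w (n + 1 + 1) t)
        = 1001 / 1000 * κ ^ 2 * L n * (lam * Yk κ x w (n + 2) t) := by ring
      _ ≤ 1001 / 1000 * (1 / 10 ^ 6) * L n * (1 / 10 ^ 19 * zz C x n t) := by gcongr
      _ = (1001 / 1000 * (1 / 10 ^ 6) * (1 / 10 ^ 19)) * (L n * zz C x n t) := by ring
      _ ≤ _ := by gcongr ?_ * _; norm_num
  have he3 := f1 g p
  have he4 : |∑ i ∈ Finset.range n, L i * B i (n + 1) * x i t| ≤ 1 / 10 ^ 20 * L n := by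
    refine (Gd.strain (x := x) q (m := n) (k := n + 1) (by omega) t).trans ?_
    have h5 := p.low.U
    have h6 := L_lam q n
    linarith
  refine zrate (X := x n t) (Z := x (n + 1) t) (c := C n)
    (R := (∑ i ∈ Finset.range (n + 1), L i * B i (n + 1) * x i t) - ℓ (n + 1))
    (L := L n) (X0 := X0) (l := ℓ (n + 1)) (b := B n (n + 1))
    (S := ∑ i ∈ Finset.range (n + 1), L i * B i (n + 1) * x i t)
    (e4 := ∑ i ∈ Finset.range n, L i * B i (n + 1) * x i t)
    (e1 := κ ^ 2 * (L (n + 1) * C (n + 1) * x (n + 1) t * x (n + 1 + 1) t))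
    (e2 := L (n + 1) * ∑' k : ℕ, B (n + 1) (n + 1 + 1 + k) *
      (κ ^ (2 * (k + 1)) * x (n + 1 + 1 + k) t ^ 2))
    (e3 := f (n + 1) t) hL hX0 hX p.X2 hC (q.B_lo n (n + 1) (by omega))
    (q.B_hi n (n + 1) (by omega)) (q.ℓ_succ n) (Finset.sum_range_succ _ _) he4 rfl
    ?_ he1 he2 he3 ?_ hK hK1 hK0
  · have := p.z1
    rw [hz'] at this
    linarith
  · have hn1 : ¬ (n + 1 = 0) := Nat.succ_ne_zero n
    unfold vfk
    rw [if_neg hn1, Nat.add_sub_cancel]
    ring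

/-- lower bound of the previous mode -/
lemma prevX (g : Gd κ lam N L C ℓ B T x w f) {m : ℕ} (h : Stg κ lam L T x w (m + 1) σ)
    (hc : Cur κ lam L T x w (m + 1) σ t1) (hub : Ub κ lam L x w (m + 1) σ t1) (htt : t ≤ t1)
    (hP : ∀ τ ∈ Ico (σ (m + 1)) t, Hy κ lam C x w (m + 1) τ) :
    ∀ τ ∈ Ico (σ (m + 1)) t, 99 / 100 ≤ x m τ := by
  have q := g.q
  have hlm := q.lamp
  have hlmb := q.lam_big
  have hL := q.Lp m
  have hC := q.Cp m
  have hCs' := q.C_small m
  have he := q.L_succ m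
  intro τ hτ
  set R := 1 / 10 ^ 5 * L m with hR
  have hR0 : 0 < R := by positivity
  have hd : ℓ m ≤ 1 / 10 ^ 20 * L m := by
    have h0 := L_lam q m
    rcases m with _ | m
    · have h1 := q.ℓ_zero
      have h2 := q.ℓ_nonneg 0
      have h3 : ℓ 0 * 1 ≤ ℓ 0 * (10 ^ 6 * 1) := by gcongr; norm_num
      have h4 : ℓ 0 ≤ L 0 / lam := by
        rw [le_div_iff₀ hlm]
        nlinarith [mul_nonneg h2 hlm.le]
      linarith
    · have h1 := q.ℓ_eq m
      rw [h1]
      linarith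
  have hα0 : 0 ≤ σ (m + 1) := σnn h le_rfl
  have h1 := mono_of (f := fun s => x m s + R * s)
    (f' := fun s => (vfk κ L C ℓ B (fun k => x k s) m + f m s) + R) hτ.1
    (((g.cont m).mono fun s hs => ⟨hα0.trans hs.1, hs.2.trans_lt
      (hτ.2.trans_le (htt.trans hc.leT))⟩).add (by fun_prop))
    (fun s hs => by
      have := (g.derivAt m (t := s) ⟨hα0.trans_lt hs.1, hs.2.trans
        (hτ.2.trans_le (htt.trans hc.leT))⟩).fun_add ((hasDerivAt_id s).const_mul R)
      simpa using this)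
    (fun s hs => by
      have hs0 : s ∈ Ico (σ (m + 1)) t := ⟨hs.1.le, hs.2.trans hτ.2⟩
      have hs1 : s ∈ Ico (σ (m + 1)) t1 := ⟨hs.1.le, hs0.2.trans_le htt⟩
      have hsI := memI h hc hs1
      have p := pw g h hc hub hs1 (hP s hs0)
      have hsm : s ∈ Ico (σ m) t1 := ⟨(h.σlt m (by omega)).le.trans hs1.1, hs1.2⟩
      have hlow := hub.low m (by omega) s hsm
      have h2 := g.vf_ge hsI m
      have h3 : |x m s| ≤ 3 / 2 := (g.x_le hsI _).trans (hub.Y m (by omega) s hsm)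
      have h4 : |x (m + 1) s| ≤ 3 / 2 := (g.x_le hsI _).trans p.Yn
      have h6 : Yk κ x w (m + 1) s ≤ 9 / 4 := by
        have := p.Yn
        calc Yk κ x w (m + 1) s = √(Yk κ x w (m + 1) s) ^ 2 := (Real.sq_sqrt (g.Y_nonneg _ _)).symm
          _ ≤ (3 / 2) ^ 2 := by gcongr
          _ = _ := by norm_num
      have h7 : Ut L x m s ≤ 1 / 10 ^ 20 * L m := by
        have := hlow.U
        have := L_lam q m
        linarith
      have h8 : C m * L m * |x (m + 1) s| ≤ 2 / 10 ^ 20 * L m := by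
        calc C m * L m * |x (m + 1) s| ≤ (1 / 10 ^ 20) * L m * (3 / 2) := by gcongr
          _ ≤ _ := by linarith
      have h9 : (ℓ m + C m * L m * |x (m + 1) s|
          + 1001 / 1000 * Ut L x m s) * |x m s| ≤ (5 / 10 ^ 20 * L m) * (3 / 2) := by
        have := Gd.U_nonneg (x := x) q m s
        have := q.ℓ_nonneg m
        gcongr
        linarith
      have h10 : 1001 / 1000 * L m * (κ ^ 2 * Yk κ x w (m + 1) s) ≤ 3 / 10 ^ 6 * L m := by
        have h11 := q.κsq_s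
        have h12 := g.Y_nonneg (m + 1) s
        calc 1001 / 1000 * L m * (κ ^ 2 * Yk κ x w (m + 1) s)
            ≤ 1001 / 1000 * L m * (1 / 10 ^ 6 * (9 / 4)) := by gcongr
          _ ≤ _ := by linarith
      have h11 := Gd.src_nonneg (x := x) q m s
      have h13 := fp g h hub hs1 p
      rw [hR]
      linarith)
  have hprev : 999 / 1000 ≤ x m (σ (m + 1)) := by
    have := h.prev (Nat.succ_ne_zero m)
    rwa [Nat.add_sub_cancel] at this
  have hel : R * (τ - σ (m + 1)) ≤ 1 / 10 ^ 5 := by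
    have h2 := hc.le
    have h3 : τ - σ (m + 1) ≤ 62 / 100 * lam / L (m + 1) := by
      have := hτ.2
      linarith
    have h4 : 62 / 100 * lam / L (m + 1) = 62 / 100 / L m := by
      rw [he]; field_simp
    rw [h4] at h3
    calc R * (τ - σ (m + 1)) ≤ R * (62 / 100 / L m) := by gcongr
      _ = 1 / 10 ^ 5 * (62 / 100) := by rw [hR]; field_simp
      _ ≤ _ := by norm_num
  have h5 : x m (σ (m + 1)) + R * σ (m + 1) ≤ x m τ + R * τ := h1
  linarith

/-- the strain of the lower modes beats the damping of the mode `n > 0` -/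
lemma strain_ge (g : Gd κ lam N L C ℓ B T x w f) {m : ℕ} (h : Stg κ lam L T x w (m + 1) σ)
    (hub : Ub κ lam L x w (m + 1) σ t1) {τ : ℝ} (hτ : τ ∈ Ico (σ (m + 1)) t1)
    (hx : 99 / 100 ≤ x m τ) :
    ℓ (m + 1) ≤ ∑ i ∈ Finset.range (m + 1), L i * B i (m + 1) * x i τ := by
  have q := g.q
  have hL := q.Lp m
  have hτm : τ ∈ Ico (σ m) t1 := ⟨(h.σlt m (by omega)).le.trans hτ.1, hτ.2⟩
  have hU := (hub.low m (by omega) τ hτm).U
  rw [Finset.sum_range_succ, q.ℓ_succ m]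
  have h3 := (abs_le.1 (Gd.strain (x := x) q (m := m) (k := m + 1) (by omega) τ)).1
  have hB := q.B_lo m (m + 1) (by omega)
  have h4 : L m * (999 / 1000) * (99 / 100) ≤ L m * B m (m + 1) * x m τ := by
    gcongr
  have h5 := L_lam q m
  linarith

/-- lower bound for the growth of the current mode -/
lemma Xlo (g : Gd κ lam N L C ℓ B T x w f) (h : Stg κ lam L T x w n σ)
    (hc : Cur κ lam L T x w n σ t1) (hub : Ub κ lam L x w n σ t1) (htt : t ≤ t1)
    (hP : ∀ τ ∈ Ico (σ n) t, Hy κ lam C x w n τ) {τ : ℝ} (hτ : τ ∈ Ico (σ n) t) :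
    -(11 / 10 ^ 7 * (L n * zz C x n τ)) - 2 / 10 ^ 6 * (L n / lam)
      ≤ vfk κ L C ℓ B (fun k => x k τ) n + f n τ := by
  have q := g.q
  have hτ1 : τ ∈ Ico (σ n) t1 := ⟨hτ.1, hτ.2.trans_le htt⟩
  have p := pw g h hc hub hτ1 (hP τ hτ)
  have hL := q.Lp n
  have hl := q.lamp
  have hl1 := q.lam1
  have hC := q.Cp n
  have hCs := q.C_small n
  have hz := p.z0
  have hκ := q.κsq_s
  have hX : 0 < x n τ := by have := p.X1; linarith
  have hX2 := p.X2
  obtain ⟨_, _, h3, _⟩ := g.vf_terms p.mem n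
  have h5 := neg_abs_le (f n τ)
  have h5' := f0 g p
  have h7 := Gd.src_nonneg (x := x) q n τ
  have hLz : 0 < L n * zz C x n τ := by positivity
  -- the interaction with the mode `n+1`
  have h4 : κ ^ 2 * (L n * C n * x n τ * x (n + 1) τ) ≤ 1 / 10 ^ 15 * (L n * zz C x n τ) := by
    have h6 : x (n + 1) τ ≤ zz C x n τ := (le_abs_self _).trans p.Z
    have hk0 := q.κk0 2
    calc κ ^ 2 * (L n * C n * x n τ * x (n + 1) τ)
        ≤ (1 / 10 ^ 6) * (L n * (1 / 10 ^ 20) * (3 / 2) * zz C x n τ) := by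
          have : L n * C n * x n τ * x (n + 1) τ ≤ L n * C n * x n τ * zz C x n τ := by
            gcongr
          calc κ ^ 2 * (L n * C n * x n τ * x (n + 1) τ)
              ≤ κ ^ 2 * (L n * C n * x n τ * zz C x n τ) := by gcongr
            _ ≤ _ := by gcongr
      _ = (1 / 10 ^ 6 * (1 / 10 ^ 20) * (3 / 2)) * (L n * zz C x n τ) := by ring
      _ ≤ _ := by gcongr ?_ * _; norm_num
  -- the back reaction
  have h8 : Yk κ x w (n + 1) τ ≤ (1 + 1 / 10 ^ 10) * zz C x n τ := by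
    rw [g.Y_succ p.mem (n + 1)]
    have a1 : x (n + 1) τ ^ 2 ≤ zz C x n τ := by
      calc x (n + 1) τ ^ 2 = |x (n + 1) τ| * |x (n + 1) τ| := by rw [← sq_abs]; ring
        _ ≤ 1 * zz C x n τ := by
          have := p.Z1
          have := p.Z
          gcongr
        _ = _ := one_mul _
    have a2 : w (n + 1) τ ^ 2 ≤ 1 / 10 ^ 15 * zz C x n τ := by
      have hw0 := g.sy.w0 (n + 1) τ p.mem
      have hd := dd_pos lam
      have hds := dd_small q
      have hdC := dd_C q n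
      have hN := q.N_one
      have h9 : dd lam ≤ C n := by
        calc dd lam = 1 * 1 * 1 * dd lam := by ring
          _ ≤ 10 ^ 20 * N * lam * dd lam := by gcongr; norm_num
          _ ≤ 1 / 10 ^ 20 * C n := hdC
          _ ≤ _ := by linarith
      have h10 := p.w1
      have h11 := p.z1
      calc w (n + 1) τ ^ 2 ≤ (4 * dd lam) ^ 2 := by gcongr
        _ = 16 * dd lam * dd lam := by ring
        _ ≤ 16 * (1 / 10 ^ 20) * (2 * zz C x n τ) := by
            gcongr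
            linarith
        _ = (16 / 10 ^ 20 * 2) * zz C x n τ := by ring
        _ ≤ _ := by gcongr ?_ * _; norm_num
    have a3 : κ ^ 2 * Yk κ x w (n + 1 + 1) τ ≤ 1 / 10 ^ 15 * zz C x n τ := by
      have h9 := Y2z g p
      have h10 := g.Y_nonneg (n + 2) τ
      have h11 : Yk κ x w (n + 2) τ ≤ lam * Yk κ x w (n + 2) τ := le_mul_of_one_le_left h10 hl1
      calc κ ^ 2 * Yk κ x w (n + 1 + 1) τ ≤ 1 * Yk κ x w (n + 1 + 1) τ := by
            have : κ ^ 2 ≤ 1 := q.κsq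
            gcongr
        _ ≤ 1 / 10 ^ 19 * zz C x n τ := by rw [one_mul]; exact h11.trans h9
        _ ≤ _ := by gcongr ?_ * _; norm_num
    linarith
  have h9 : L n * ∑' k : ℕ, B n (n + 1 + k) * (κ ^ (2 * (k + 1)) * x (n + 1 + k) τ ^ 2)
      ≤ 105 / 10 ^ 8 * (L n * zz C x n τ) := by
    refine h3.trans ?_
    have h10 := g.Y_nonneg (n + 1) τ
    calc 1001 / 1000 * L n * (κ ^ 2 * Yk κ x w (n + 1) τ)
        ≤ 1001 / 1000 * L n * (1 / 10 ^ 6 * ((1 + 1 / 10 ^ 10) * zz C x n τ)) := by gcongr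
      _ = (1001 / 1000 * (1 / 10 ^ 6) * (1 + 1 / 10 ^ 10)) * (L n * zz C x n τ) := by ring
      _ ≤ _ := by gcongr ?_ * _; norm_num
  -- damping and strain
  have h10 : -(2 / 10 ^ 6 * (L n / lam)) ≤
      x n τ * ∑ i ∈ Finset.range n, L i * B i n * x i τ - ℓ n * x n τ := by
    rcases n with _ | m
    · have h11 := q.ℓ_zero
      have h12 := q.ℓ_nonneg 0
      have h13 : ℓ 0 ≤ 1 / 10 ^ 6 * (L 0 / lam) := by
        rw [← mul_div_assoc, le_div_iff₀ hl]
        linarith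
      have h14 : ℓ 0 * x 0 τ ≤ 1 / 10 ^ 6 * (L 0 / lam) * (3 / 2) := by gcongr
      have h15 : 0 < L 0 / lam := by positivity
      simp only [Finset.range_zero, Finset.sum_empty, mul_zero]
      linarith
    · have h11 := prevX g h hc hub htt hP τ hτ
      have h12 := strain_ge g h hub hτ1 h11
      have h13 : 0 < L (m + 1) / lam := by positivity
      have h14 : ℓ (m + 1) * x (m + 1) τ ≤ x (m + 1) τ *
          ∑ i ∈ Finset.range (m + 1), L i * B i (m + 1) * x i τ := by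
        rw [mul_comm]
        gcongr
      linarith
  unfold vfk
  unfold Gd.src at h7
  simp only
  linarith

end Pool.Agent.Y340.EP
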