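import Pool.Agent.Y340.EP.Rat2

/-! The growth of the mode `n+1` and the lower bound of the mode `n` during a stage
(endpoint dynamics). -/

open Set Filter Topology MeasureTheory

set_option autoImplicit false

namespace Pool.Agent.Y340.EP

open Pool.Agent.Y5 (mono_of)
open Pool.Agent.Y5.E (At Aw Ut Uw loc)
open Pool.Agent.Y5.F (vfk Yk Wk)
open Pool.Agent.Y8.EP

theorem t_RAT : S_RAT := by
  intro κ lam N L C ℓ B T x w f n σ t1 t g h hc hub ht hy
  have q := g.q
  have hlm := q.lamp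
  have hlmb := q.lam_big
  have hC := q.Cp n
  have hCs' := q.C_small n
  have h0 : 0 ≤ σ n := σnn h le_rfl
  have hL := q.Lp n
  have htT : t < T := ht.2.trans_le hc.leT
  -- pointwise facts
  have hpw : ∀ τ ∈ Ico (σ n) t, Pw κ lam L C T x w n τ := fun τ hτ =>
    pw g h hc hub ⟨hτ.1, hτ.2.trans ht.2⟩ (hy τ hτ)
  have hsub : Icc (σ n) t ⊆ Ico 0 T := fun τ hτ => ⟨h0.trans hτ.1, hτ.2.trans_lt htT⟩
  set z : ℝ → ℝ := zz C x n with hz
  set z' : ℝ → ℝ := fun τ => vfk κ L C ℓ B (fun k => x k τ) (n + 1) + f (n + 1) τ with hz'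
  have hzc : ContinuousOn z (Icc (σ n) t) :=
    ((g.cont (n + 1)).mono hsub).add continuousOn_const
  have hzd : ∀ τ ∈ Ioo (σ n) t, HasDerivAt z (z' τ) τ := fun τ hτ => by
    have hτT : τ ∈ Ioo 0 T := ⟨h0.trans_lt hτ.1, hτ.2.trans htT⟩
    exact (g.derivAt (n + 1) hτT).add_const (C n)
  have hzge : ∀ τ ∈ Ioo (σ n) t, 88 / 1000 * (L n * z τ) ≤ z' τ := fun τ hτ =>
    Zder g (hpw τ ⟨hτ.1.le, hτ.2⟩) (X0 := 99 / 100) le_rfl (hpw τ ⟨hτ.1.le, hτ.2⟩).X1.le
      (by norm_num) (by norm_num) (by norm_num)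
  have hz'0 : ∀ τ ∈ Ioo (σ n) t, 0 ≤ z' τ := fun τ hτ => by
    refine le_trans ?_ (hzge τ hτ)
    have := (hpw τ ⟨hτ.1.le, hτ.2⟩).z0
    positivity
  have hmono : ∀ τ ∈ Icc (σ n) t, z (σ n) ≤ z τ := fun τ hτ =>
    mono_of hτ.1 (hzc.mono (Icc_subset_Icc_right hτ.2))
      (fun s hs => hzd s ⟨hs.1, hs.2.trans_le hτ.2⟩)
      (fun s hs => hz'0 s ⟨hs.1, hs.2.trans_le hτ.2⟩)
  -- the initial value
  have hz0 : 7 / 8 * C n ≤ z (σ n) := by
    have h1 := h.ng 0
    have e : Pn 0 = 603 / 10000 := by simp [Pn]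
    rw [e, add_zero] at h1
    have h2 : Real.exp (-(603 / 10000) * lam) ≤ C n / 8 := by
      have h3 := q.C_lo n
      have h4 : Real.exp (-(603 / 10000) * lam)
          = Real.exp (-(2 / 10000) * lam) * Real.exp (-(601 / 10000) * lam) := by
        rw [← Real.exp_add]; congr 1; ring
      have h5 : Real.exp (-(2 / 10000) * lam) ≤ 1 / 10 ^ 20 := q.exp_small (by norm_num)
      rw [h4]
      calc Real.exp (-(2 / 10000) * lam) * Real.exp (-(601 / 10000) * lam)
          ≤ 1 / 10 ^ 20 * C n := by gcongr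
        _ ≤ _ := by linarith
    rw [hz]
    unfold zz
    linarith
  have hzlo : ∀ τ ∈ Icc (σ n) t, 7 / 8 * C n ≤ z τ := fun τ hτ => hz0.trans (hmono τ hτ)
  have hzhi : ∀ τ ∈ Icc (σ n) t, z τ ≤ 1 + C n := fun τ hτ =>
    zzle g h hc ⟨hτ.1, hτ.2.trans_lt ht.2⟩
  -- lower bound for the mode
  have hXlow : ∀ b ∈ Icc (σ n) t, 9998 / 10000 ≤ x n b := by
    intro b hb
    have hbt : b ≤ t1 := hb.2.trans ht.2.le
    set d := 2 / 10 ^ 6 * (L n / lam) with hd
    have hd0 : 0 < d := by positivity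
    have hm := mono_of (f := fun τ => x n τ + 13 / 10 ^ 6 * z τ + d * τ)
      (f' := fun τ => (vfk κ L C ℓ B (fun k => x k τ) n + f n τ)
        + 13 / 10 ^ 6 * z' τ + d) hb.1
      (by
        refine ContinuousOn.add (ContinuousOn.add ?_ ?_) (by fun_prop)
        · exact (g.cont n).mono ((Icc_subset_Icc_right hb.2).trans hsub)
        · exact continuousOn_const.mul (hzc.mono (Icc_subset_Icc_right hb.2)))
      (fun τ hτ => by
        have hτ1 : τ ∈ Ioo (σ n) t := ⟨hτ.1, hτ.2.trans_le hb.2⟩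
        have hτT : τ ∈ Ioo 0 T := ⟨h0.trans_lt hτ1.1, hτ1.2.trans htT⟩
        have h1 := g.derivAt n hτT
        have h2 := (hzd τ hτ1).const_mul (13 / 10 ^ 6 : ℝ)
        have h3 := (h1.fun_add h2).fun_add ((hasDerivAt_id τ).const_mul d)
        simpa using h3)
      (fun τ hτ => by
        have hτ1 : τ ∈ Ioo (σ n) t := ⟨hτ.1, hτ.2.trans_le hb.2⟩
        have hτ2 : τ ∈ Ico (σ n) t := ⟨hτ1.1.le, hτ1.2⟩
        have h1 := Xlo g h hc hub ht.2.le hy hτ2
        have h2 := hzge τ hτ1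
        have h3 : 0 < L n * z τ := mul_pos hL (hpw τ hτ2).z0
        rw [← hz, ← hd] at h1
        linarith)
    have hdt : d * (b - σ n) ≤ 2 / 10 ^ 6 := by
      have h2 := hc.le
      have h3 : b - σ n ≤ 62 / 100 * lam / L n := by linarith
      calc d * (b - σ n) ≤ d * (62 / 100 * lam / L n) := by gcongr
        _ = 2 / 10 ^ 6 * (62 / 100) := by rw [hd]; field_simp
        _ ≤ _ := by norm_num
    have h1 := hzhi b hb
    have h2 := hzlo (σ n) ⟨le_rfl, ht.1.le⟩
    have h3 := h.init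
    have h4 : x n (σ n) + 13 / 10 ^ 6 * z (σ n) + d * σ n
        ≤ x n b + 13 / 10 ^ 6 * z b + d * b := hm
    linarith
  have hzge2 : ∀ τ ∈ Ioo (σ n) t, 985 / 10000 * (L n * z τ) ≤ z' τ := fun τ hτ =>
    Zder g (hpw τ ⟨hτ.1.le, hτ.2⟩) (X0 := 9998 / 10000) (by norm_num)
      (hXlow τ ⟨hτ.1.le, hτ.2.le⟩) (by norm_num) (by norm_num) (by norm_num)
  refine ⟨fun τ hτ => ⟨z' τ, hzd τ hτ, hzge2 τ hτ⟩, hzlo t ⟨ht.1.le, le_rfl⟩,
    hXlow t ⟨ht.1.le, le_rfl⟩, ?_⟩
  -- the duration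
  have hm := mono_of (f := fun τ => Real.log (z τ) - 985 / 10000 * L n * τ)
    (f' := fun τ => z' τ / z τ - 985 / 10000 * L n) ht.1.le
    (by
      refine ContinuousOn.sub (ContinuousOn.log hzc ?_) (by fun_prop)
      intro τ hτ
      have := hzlo τ hτ
      have h2 : 0 < z τ := by linarith
      exact h2.ne')
    (fun τ hτ => by
      have h1 := hzlo τ ⟨hτ.1.le, hτ.2.le⟩
      have h2 : 0 < z τ := by linarith
      have h3 := (hzd τ hτ).log h2.ne'
      have h4 := h3.fun_sub ((hasDerivAt_id τ).const_mul (985 / 10000 * L n))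
      simpa using h4)
    (fun τ hτ => by
      have h1 := hzlo τ ⟨hτ.1.le, hτ.2.le⟩
      have h2 : 0 < z τ := by linarith
      have h3 := hzge2 τ hτ
      have h5 : 985 / 10000 * L n ≤ z' τ / z τ := by
        rw [le_div_iff₀ h2]
        linarith
      linarith)
  have hlog1 : Real.log (z t) ≤ 1 := by
    have h1 := hzhi t ⟨ht.1.le, le_rfl⟩
    have h2 := hzlo t ⟨ht.1.le, le_rfl⟩
    have h3 := Real.log_le_sub_one_of_pos (show 0 < z t by linarith)
    linarith
  have hlog2 : -(601 / 10000) * lam - 1 ≤ Real.log (z (σ n)) := by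
    rw [Real.le_log_iff_exp_le (by linarith)]
    have h9 := q.C_lo n
    have h10 : Real.exp (-(601 / 10000) * lam - 1)
        = Real.exp (-(601 / 10000) * lam) * Real.exp (-1) := by
      rw [← Real.exp_add]; congr 1
    rw [h10]
    have h11 : Real.exp (-1) ≤ 7 / 8 := by
      have := Real.exp_neg_one_lt_d9; linarith
    calc Real.exp (-(601 / 10000) * lam) * Real.exp (-1) ≤ C n * (7 / 8) := by gcongr
      _ ≤ z (σ n) := by linarith
  have hm' : Real.log (z (σ n)) - 985 / 10000 * L n * σ n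
      ≤ Real.log (z t) - 985 / 10000 * L n * t := hm
  nlinarith

end Pool.Agent.Y340.EP
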